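import Mathlib

/-!
# Rigid modules over finite algebras over two-dimensional regular local rings: definitions

Project D2 (seat helper42, MP_d7d607_ag).  `S` is a commutative ring, `R` an `S`-algebra, an
`R`-module which is `S`-free of rank `e` is an `S`-algebra homomorphism `R → M_e(S)`.
-/

set_option autoImplicit false
set_option linter.unusedSectionVars false

namespace H42.D2

/-- Kernels of maps between finite free modules are free. -/
def FK (S : Type*) [CommRing S] : Prop :=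
  ∀ (p q : ℕ) (f : (Fin p → S) →ₗ[S] (Fin q → S)), Module.Free S (LinearMap.ker f)

section

variable {S : Type*} [CommRing S] {R : Type*} [Ring R] [Algebra S R] {e : ℕ}

/-- `U ↦ (a ↦ σ a * U - U * ρ a)` -/
def d0 (σ ρ : R →ₗ[S] Matrix (Fin e) (Fin e) S) :
    Matrix (Fin e) (Fin e) S →ₗ[S] (R →ₗ[S] Matrix (Fin e) (Fin e) S) where
  toFun U :=
    { toFun := fun a => σ a * U - U * ρ a
      map_add' := by intro a b; simp only [map_add, add_mul, mul_add]; abel
      map_smul' := by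
        intro c a
        simp only [map_smul, RingHom.id_apply, smul_mul_assoc, mul_smul_comm, smul_sub] }
  map_add' := by
    intro U V; ext1 a
    simp only [LinearMap.coe_mk, AddHom.coe_mk, LinearMap.add_apply, mul_add, add_mul]; abel
  map_smul' := by
    intro c U; ext1 a
    simp only [LinearMap.coe_mk, AddHom.coe_mk, LinearMap.smul_apply, RingHom.id_apply,
      mul_smul_comm, smul_mul_assoc, smul_sub]

@[simp] lemma d0_apply (σ ρ : R →ₗ[S] Matrix (Fin e) (Fin e) S) (U : Matrix (Fin e) (Fin e) S)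
    (a : R) : d0 σ ρ U a = σ a * U - U * ρ a := rfl

/-- `D ↦ ((a, b) ↦ σ a * D b - D (a * b) + D a * ρ b)` -/
def d1 (σ ρ : R →ₗ[S] Matrix (Fin e) (Fin e) S) :
    (R →ₗ[S] Matrix (Fin e) (Fin e) S) →ₗ[S] (R →ₗ[S] R →ₗ[S] Matrix (Fin e) (Fin e) S) where
  toFun D :=
    { toFun := fun a =>
        { toFun := fun b => σ a * D b - D (a * b) + D a * ρ b
          map_add' := by intro b c; simp only [map_add, mul_add]; abel
          map_smul' := by
            intro c b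
            simp only [map_smul, RingHom.id_apply, mul_smul_comm, smul_sub, smul_add] }
      map_add' := by
        intro a b; ext1 c
        simp only [LinearMap.coe_mk, AddHom.coe_mk, LinearMap.add_apply, map_add, add_mul]; abel
      map_smul' := by
        intro c a; ext1 b
        simp only [LinearMap.coe_mk, AddHom.coe_mk, LinearMap.smul_apply, RingHom.id_apply,
          map_smul, smul_mul_assoc, smul_sub, smul_add] }
  map_add' := by
    intro D D'; ext1 a; ext1 b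
    simp only [LinearMap.coe_mk, AddHom.coe_mk, LinearMap.add_apply, mul_add, add_mul]; abel
  map_smul' := by
    intro c D; ext1 a; ext1 b
    simp only [LinearMap.coe_mk, AddHom.coe_mk, LinearMap.smul_apply, RingHom.id_apply,
      mul_smul_comm, smul_mul_assoc, smul_sub, smul_add]

@[simp] lemma d1_apply (σ ρ : R →ₗ[S] Matrix (Fin e) (Fin e) S)
    (D : R →ₗ[S] Matrix (Fin e) (Fin e) S) (a b : R) :
    d1 σ ρ D a b = σ a * D b - D (a * b) + D a * ρ b := rfl

/-- left multiplication part of `d0`, linear in `σ`. -/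
def t0 (U : Matrix (Fin e) (Fin e) S) :
    (R →ₗ[S] Matrix (Fin e) (Fin e) S) →ₗ[S] (R →ₗ[S] Matrix (Fin e) (Fin e) S) where
  toFun σ :=
    { toFun := fun a => σ a * U
      map_add' := by intro a b; simp only [map_add, add_mul]
      map_smul' := by
        intro c a; simp only [map_smul, RingHom.id_apply, smul_mul_assoc] }
  map_add' := by
    intro σ τ; ext1 a
    simp only [LinearMap.coe_mk, AddHom.coe_mk, LinearMap.add_apply, add_mul]
  map_smul' := by
    intro c σ; ext1 a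
    simp only [LinearMap.coe_mk, AddHom.coe_mk, LinearMap.smul_apply, RingHom.id_apply,
      smul_mul_assoc]

@[simp] lemma t0_apply (U : Matrix (Fin e) (Fin e) S) (σ : R →ₗ[S] Matrix (Fin e) (Fin e) S)
    (a : R) : t0 U σ a = σ a * U := rfl

/-- Homomorphisms from `ρ` to `σ`. -/
def Hm (ρ σ : R →ₐ[S] Matrix (Fin e) (Fin e) S) : Submodule S (Matrix (Fin e) (Fin e) S) where
  carrier := {U | ∀ a, σ a * U = U * ρ a}
  add_mem' := by
    intro U V hU hV a
    rw [mul_add, add_mul, hU a, hV a]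
  zero_mem' := by intro a; simp
  smul_mem' := by
    intro c U hU a
    rw [mul_smul_comm, smul_mul_assoc, hU a]

lemma mem_Hm {ρ σ : R →ₐ[S] Matrix (Fin e) (Fin e) S} {U : Matrix (Fin e) (Fin e) S} :
    U ∈ Hm ρ σ ↔ ∀ a, σ a * U = U * ρ a := Iff.rfl

lemma Hm_eq_ker (ρ σ : R →ₐ[S] Matrix (Fin e) (Fin e) S) :
    Hm ρ σ = LinearMap.ker (d0 σ.toLinearMap ρ.toLinearMap) := by
  ext U
  rw [LinearMap.mem_ker, mem_Hm]
  constructor
  · intro h
    ext1 a
    simp [h a]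
  · intro h a
    have := LinearMap.congr_fun h a
    simpa [sub_eq_zero] using this

/-- Rigid: all derivations are inner. -/
def Rig (ρ : R →ₐ[S] Matrix (Fin e) (Fin e) S) : Prop :=
  ∀ D : R →ₗ[S] Matrix (Fin e) (Fin e) S, (∀ a b, D (a * b) = ρ a * D b + D a * ρ b) →
    ∃ U, ∀ a, D a = ρ a * U - U * ρ a

/-- Isomorphic over the localization at `p`. -/
def Loc (p : S) (ρ σ : R →ₐ[S] Matrix (Fin e) (Fin e) S) : Prop :=
  ∃ U ∈ Hm ρ σ, ¬ p ∣ U.det

/-- Isomorphic over the fraction field. -/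
def Gn (ρ σ : R →ₐ[S] Matrix (Fin e) (Fin e) S) : Prop :=
  ∃ U ∈ Hm ρ σ, U.det ≠ 0

lemma one_mem_Hm (ρ : R →ₐ[S] Matrix (Fin e) (Fin e) S) :
    (1 : Matrix (Fin e) (Fin e) S) ∈ Hm ρ ρ := by
  intro a; simp

lemma mul_mem_Hm {ρ σ τ : R →ₐ[S] Matrix (Fin e) (Fin e) S} {U V : Matrix (Fin e) (Fin e) S}
    (hU : U ∈ Hm ρ σ) (hV : V ∈ Hm σ τ) : V * U ∈ Hm ρ τ := by
  intro a
  rw [← mul_assoc, hV a, mul_assoc, hU a, mul_assoc]

lemma adjugate_mem_Hm [IsDomain S] {ρ σ : R →ₐ[S] Matrix (Fin e) (Fin e) S}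
    {U : Matrix (Fin e) (Fin e) S} (hU : U ∈ Hm ρ σ) (hd : U.det ≠ 0) :
    U.adjugate ∈ Hm σ ρ := by
  intro a
  have h1 : U.adjugate * (σ a * U) * U.adjugate = U.adjugate * (U * ρ a) * U.adjugate := by
    rw [hU a]
  have h2 : U.adjugate * (σ a * U) * U.adjugate = U.det • (U.adjugate * σ a) := by
    rw [mul_assoc, mul_assoc, Matrix.mul_adjugate, Matrix.mul_smul, Matrix.mul_one,
      Matrix.mul_smul]
  have h3 : U.adjugate * (U * ρ a) * U.adjugate = U.det • (ρ a * U.adjugate) := by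
    rw [← mul_assoc, Matrix.adjugate_mul, Matrix.smul_mul, Matrix.one_mul, Matrix.smul_mul]
  rw [h2, h3] at h1
  exact (smul_right_injective _ hd h1).symm

end

section

variable {S : Type*} [CommRing S] [IsDomain S] {R : Type*} [Ring R] [Algebra S R] {e : ℕ}

lemma Loc.refl {p : S} (hp : Prime p) (ρ : R →ₐ[S] Matrix (Fin e) (Fin e) S) : Loc p ρ ρ := by
  refine ⟨1, one_mem_Hm ρ, ?_⟩
  rw [Matrix.det_one]
  exact hp.not_dvd_one

lemma Loc.trans {p : S} (hp : Prime p) {ρ σ τ : R →ₐ[S] Matrix (Fin e) (Fin e) S}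
    (h1 : Loc p ρ σ) (h2 : Loc p σ τ) : Loc p ρ τ := by
  obtain ⟨U, hU, hU'⟩ := h1
  obtain ⟨V, hV, hV'⟩ := h2
  refine ⟨V * U, mul_mem_Hm hU hV, ?_⟩
  rw [Matrix.det_mul]
  exact fun h => (hp.dvd_or_dvd h).elim hV' hU'

lemma Loc.symm {p : S} (hp : Prime p) {ρ σ : R →ₐ[S] Matrix (Fin e) (Fin e) S}
    (h1 : Loc p ρ σ) : Loc p σ ρ := by
  obtain ⟨U, hU, hU'⟩ := h1
  refine ⟨U.adjugate, adjugate_mem_Hm hU (fun h => hU' (h ▸ dvd_zero p)), ?_⟩
  rw [Matrix.det_adjugate]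
  exact fun h => hU' (hp.dvd_of_dvd_pow h)

lemma Loc.of_associated {p q : S} (h : Associated p q)
    {ρ σ : R →ₐ[S] Matrix (Fin e) (Fin e) S} (h1 : Loc p ρ σ) : Loc q ρ σ := by
  obtain ⟨U, hU, hU'⟩ := h1
  exact ⟨U, hU, fun h2 => hU' (h.dvd_iff_dvd_left.mpr h2)⟩

lemma Gn.refl (ρ : R →ₐ[S] Matrix (Fin e) (Fin e) S) : Gn ρ ρ :=
  ⟨1, one_mem_Hm ρ, by rw [Matrix.det_one]; exact one_ne_zero⟩

lemma Gn.trans {ρ σ τ : R →ₐ[S] Matrix (Fin e) (Fin e) S}
    (h1 : Gn ρ σ) (h2 : Gn σ τ) : Gn ρ τ := by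
  obtain ⟨U, hU, hU'⟩ := h1
  obtain ⟨V, hV, hV'⟩ := h2
  refine ⟨V * U, mul_mem_Hm hU hV, ?_⟩
  rw [Matrix.det_mul]
  exact mul_ne_zero hV' hU'

lemma Gn.symm {ρ σ : R →ₐ[S] Matrix (Fin e) (Fin e) S} (h1 : Gn ρ σ) : Gn σ ρ := by
  obtain ⟨U, hU, hU'⟩ := h1
  refine ⟨U.adjugate, adjugate_mem_Hm hU hU', ?_⟩
  rw [Matrix.det_adjugate]
  exact pow_ne_zero _ hU'

end

end H42.D2
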