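import Mathlib
import Pool.Agent.H42.D2.Base
import Pool.Agent.H42.Rep

/-!
# Job D2-11: two members of a sequence of rigid representations are generically isomorphic
(helper42, MP_d7d607_ag)

Apply `H42.exists_iso_of_rigid` (file `Pool/Agent/H42/Rep.lean`) over the field `K = FractionRing S` with the finite-dimensional
`K`-algebra `A = K ⊗[S] R` and `ρK i : A →ₐ[K] Matrix (Fin e) (Fin e) K`
(`Algebra.TensorProduct.lift` of `Algebra.ofId` and `(algebraMap S K).mapMatrix ∘ ρ i`; or
`(matrixEquivTensor)`-free: `AlgHom.liftOfRightInverse`...; any construction with `ρK i (1 ⊗ a) = (ρ i a).map (algebraMap S K)`).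
Rigidity over `K`: a derivation `D : A → M_e(K)` restricted to `R` has values `D (1 ⊗ a)`, `R` is finite over `S`, so for a common
denominator `s ≠ 0` of the values at generators `s • D (1 ⊗ a) = (D' a).map (algebraMap S K)` for a linear `D' : R → M_e(S)`
(`algebraMap` injective); `D'` is a derivation, so inner, `D' a = ρ a * U - U * ρ a`, and `D = ` inner for `s⁻¹ U` (extend from
`1 ⊗ a` by `K`-linearity).  The result `U ∈ M_e(K)` intertwines; multiply by a common denominator to get `U' ∈ M_e(S)` in
`Hm (ρ i) (ρ j)` with `det U' ≠ 0`.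
-/

set_option autoImplicit false
set_option linter.unusedVariables false

namespace H42.D2

open TensorProduct

section

variable {S : Type*} [CommRing S] [IsDomain S] {K : Type*} [Field K] [Algebra S K]
  [IsFractionRing S K] {R : Type*} [Ring R] [Algebra S R] {e : ℕ}

/-- Entrywise algebra map. -/
def em (S K : Type*) [CommRing S] [Field K] [Algebra S K] (e : ℕ) :
    Matrix (Fin e) (Fin e) S →ₐ[S] Matrix (Fin e) (Fin e) K :=
  (Algebra.ofId S K).mapMatrix

omit [IsDomain S] [IsFractionRing S K] in
lemma em_apply (U : Matrix (Fin e) (Fin e) S) (i j : Fin e) :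
    em S K e U i j = algebraMap S K (U i j) := rfl

omit [IsDomain S] in
lemma em_injective : Function.Injective (em S K e) := by
  intro U V h
  ext i j
  apply IsFractionRing.injective S K
  have := congrFun (congrFun h i) j
  exact this

omit [IsDomain S] [IsFractionRing S K] in
lemma det_em (U : Matrix (Fin e) (Fin e) S) : (em S K e U).det = algebraMap S K U.det := by
  rw [RingHom.map_det]
  rfl

/-- The representation over the fraction field. -/
noncomputable def rK (K : Type*) [Field K] [Algebra S K]
    (ρ : R →ₐ[S] Matrix (Fin e) (Fin e) S) :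
    K ⊗[S] R →ₐ[K] Matrix (Fin e) (Fin e) K :=
  Algebra.TensorProduct.lift (Algebra.ofId K (Matrix (Fin e) (Fin e) K))
    ((em S K e).comp ρ) (fun x y => Algebra.commute_algebraMap_left x _)

omit [IsDomain S] [IsFractionRing S K] in
lemma rK_tmul (ρ : R →ₐ[S] Matrix (Fin e) (Fin e) S) (c : K) (a : R) :
    rK K ρ (c ⊗ₜ a) = c • em S K e (ρ a) := by
  refine (Algebra.TensorProduct.lift_tmul _ _ _ _ _).trans ?_
  exact (Algebra.smul_def c (em S K e (ρ a))).symm

/-- Common denominators. -/
lemma exists_denom [Module.Finite S R] (D : R →ₗ[S] Matrix (Fin e) (Fin e) K) :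
    ∃ s : S, s ≠ 0 ∧ ∃ D' : R →ₗ[S] Matrix (Fin e) (Fin e) S, ∀ a, s • D a = em S K e (D' a) := by
  classical
  obtain ⟨g, r, hr⟩ := Module.Finite.exists_fin (R := S) (M := R)
  obtain ⟨s, hs⟩ := IsLocalization.exist_integer_multiples_of_finite (nonZeroDivisors S)
    (fun x : Fin g × Fin e × Fin e => D (r x.1) x.2.1 x.2.2)
  have hs0 : (s : S) ≠ 0 := nonZeroDivisors.ne_zero s.2
  have h1 : ∀ a, (s : S) • D a ∈ LinearMap.range (em S K e).toLinearMap := by
    intro a
    have ha : a ∈ Submodule.span S (Set.range r) := by rw [hr]; trivial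
    induction ha using Submodule.span_induction with
    | mem x hx =>
      obtain ⟨i, rfl⟩ := hx
      choose z hz using fun x : Fin g × Fin e × Fin e => hs x
      refine ⟨Matrix.of fun p q => z (i, p, q), ?_⟩
      ext p q
      exact hz (i, p, q)
    | zero => rw [map_zero, smul_zero]; exact Submodule.zero_mem _
    | add x y _ _ hx hy => rw [map_add, smul_add]; exact Submodule.add_mem _ hx hy
    | smul c x _ hx => rw [map_smul, smul_comm]; exact Submodule.smul_mem _ _ hx
  choose D' hD' using h1
  have hD2 : ∀ a, em S K e (D' a) = (s : S) • D a := hD'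
  refine ⟨s, hs0, { toFun := D', map_add' := ?_, map_smul' := ?_ }, fun a => (hD2 a).symm⟩
  · intro a b
    apply em_injective (K := K)
    rw [hD2, map_add, map_add, hD2, hD2, smul_add]
  · intro c a
    apply em_injective (K := K)
    rw [hD2, map_smul, RingHom.id_apply, map_smul, hD2, smul_comm]

end

theorem exists_gn_pair {S : Type*} [CommRing S] [IsDomain S] {R : Type*} [Ring R]
    [Algebra S R] [Module.Finite S R] {e : ℕ} (ρ : ℕ → (R →ₐ[S] Matrix (Fin e) (Fin e) S))
    (hρ : ∀ i, Rig (ρ i)) : ∃ i j, i < j ∧ Gn (ρ i) (ρ j) := by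
  classical
  let K := FractionRing S
  obtain ⟨i, j, hij, U, hU, hdet⟩ := H42.exists_iso_of_rigid (κ := K) (A := K ⊗[S] R) (r := e)
    (fun i => (rK K (ρ i)).toLinearMap) (fun i a b => map_mul (rK K (ρ i)) a b) (by
      intro i D hD
      -- restriction to `R`
      let D1 : R →ₗ[S] Matrix (Fin e) (Fin e) K :=
        (D.restrictScalars S) ∘ₗ (Algebra.TensorProduct.includeRight (R := S) (A := K) (B := R)).toLinearMap
      have hD1 : ∀ a, D1 a = D ((1 : K) ⊗ₜ[S] a) := fun a => rfl
      obtain ⟨s, hs, D', hD'⟩ := exists_denom (K := K) D1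
      have hder : ∀ a b, D' (a * b) = ρ i a * D' b + D' a * ρ i b := by
        intro a b
        apply em_injective (K := K)
        rw [← hD', map_add, map_mul (em S K e), map_mul (em S K e), ← hD', ← hD', hD1, hD1, hD1]
        have h1 := hD ((1 : K) ⊗ₜ[S] a) ((1 : K) ⊗ₜ[S] b)
        rw [Algebra.TensorProduct.tmul_mul_tmul, one_mul] at h1
        have h2 : ∀ a, (rK K (ρ i)).toLinearMap ((1 : K) ⊗ₜ[S] a) = em S K e (ρ i a) := by
          intro a
          rw [AlgHom.toLinearMap_apply, rK_tmul, one_smul]
        rw [h1, h2, h2, smul_add, mul_smul_comm, smul_mul_assoc]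
      obtain ⟨U, hU⟩ := hρ i D' hder
      have hs' : algebraMap S K s ≠ 0 := fun h => hs (IsFractionRing.injective S K (by
        rw [h, map_zero]))
      refine ⟨(algebraMap S K s)⁻¹ • em S K e U, fun x => ?_⟩
      have h3 : ∀ a, D ((1 : K) ⊗ₜ[S] a) = em S K e (ρ i a) * ((algebraMap S K s)⁻¹ • em S K e U) -
          ((algebraMap S K s)⁻¹ • em S K e U) * em S K e (ρ i a) := by
        intro a
        have h4 := hD' a
        rw [hD1, hU, map_sub, map_mul, map_mul] at h4
        rw [mul_smul_comm, smul_mul_assoc, ← smul_sub, ← h4, ← algebraMap_smul K s, smul_smul,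
          inv_mul_cancel₀ hs', one_smul]
      induction x using TensorProduct.induction_on with
      | zero => simp
      | tmul c a =>
        have h5 : c ⊗ₜ[S] a = c • ((1 : K) ⊗ₜ[S] a) := by
          rw [TensorProduct.smul_tmul', smul_eq_mul, mul_one]
        have h6 : (rK K (ρ i)).toLinearMap (c ⊗ₜ[S] a) = c • em S K e (ρ i a) := by
          rw [AlgHom.toLinearMap_apply, rK_tmul]
        rw [h6, h5, map_smul, h3, smul_sub]
        simp only [smul_mul_assoc, mul_smul_comm]
        rw [smul_comm c]
      | add x y hx hy =>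
        rw [map_add, map_add, hx, hy, add_mul, mul_add]
        abel)
  -- clear denominators in `U`
  obtain ⟨s, hs⟩ := IsLocalization.exist_integer_multiples_of_finite (nonZeroDivisors S)
    (fun x : Fin e × Fin e => U x.1 x.2)
  have hs0 : (s : S) ≠ 0 := nonZeroDivisors.ne_zero s.2
  have hs' : algebraMap S K (s : S) ≠ 0 := fun h => hs0 (IsFractionRing.injective S K (by
    rw [h, map_zero]))
  choose z hz using fun x : Fin e × Fin e => hs x
  let V : Matrix (Fin e) (Fin e) S := Matrix.of fun p q => z (p, q)
  have hV : em S K e V = (algebraMap S K (s : S)) • U := by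
    ext p q
    rw [em_apply, Matrix.smul_apply, smul_eq_mul]
    have := hz (p, q)
    rw [← Algebra.smul_def]
    exact this
  refine ⟨i, j, hij, V, ?_, ?_⟩
  · intro a
    apply em_injective (K := K)
    have h1 := hU ((1 : K) ⊗ₜ[S] a)
    have h2 : ∀ i, (rK K (ρ i)).toLinearMap ((1 : K) ⊗ₜ[S] a) = em S K e (ρ i a) := by
      intro i
      rw [AlgHom.toLinearMap_apply, rK_tmul, one_smul]
    simp only [h2] at h1
    rw [map_mul, map_mul, hV, mul_smul_comm, smul_mul_assoc, h1]
  · intro h
    have h1 := det_em (K := K) V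
    rw [h, map_zero, hV, Matrix.det_smul] at h1
    exact mul_ne_zero (pow_ne_zero _ hs') hdet h1

end H42.D2
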