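import Mathlib
import Pool.Agent.H42.D2.Base

/-!
# Families over a commutative ring and Noetherian selection (seat helper42, MP_d7d607_ag)
-/

set_option autoImplicit false
set_option linter.unusedSectionVars false

namespace H42.D2

section Fam

variable {S : Type*} [CommRing S]

/-- Noetherian selection. -/
theorem exists_selection [IsNoetherianRing S] (P : Subalgebra S (ℕ → S)) (hP : P.FG)
    (J : ℕ → Ideal S) :
    ∃ m : ℕ, ∀ F ∈ P, F m ∉ J m → ∃ j, m < j ∧ F j ∉ J j := by
  classical
  have hnoeth : IsNoetherianRing P := by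
    have : Algebra.FiniteType S P := (Subalgebra.fg_iff_finiteType P).mp hP
    exact Algebra.FiniteType.isNoetherianRing S P
  let I : ℕ →o Ideal P :=
    { toFun := fun m =>
        { carrier := {F | ∀ j, m ≤ j → (F : ℕ → S) j ∈ J j}
          add_mem' := by
            intro a b ha hb j hj
            exact (J j).add_mem (ha j hj) (hb j hj)
          zero_mem' := by intro j _; exact (J j).zero_mem
          smul_mem' := by
            intro c a ha j hj
            exact (J j).mul_mem_left _ (ha j hj) }
      monotone' := by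
        intro a b hab F hF j hj
        exact hF j (hab.trans hj) }
  obtain ⟨m, hm⟩ := monotone_stabilizes_iff_noetherian.mpr hnoeth I
  refine ⟨m, fun F hF hFm => ?_⟩
  by_contra hcon
  push Not at hcon
  have h1 : (⟨F, hF⟩ : P) ∈ I (m+1) := by
    intro j hj
    exact hcon j hj
  rw [← hm (m+1) (Nat.le_succ m)] at h1
  exact hFm (h1 m le_rfl)

/-- A family of vectors all of whose coordinates lie in `P`. -/
def QFam (P : Subalgebra S (ℕ → S)) {W : Type*} [AddCommGroup W] [Module S W] (w : ℕ → W) : Prop :=
  ∀ l : W →ₗ[S] S, (fun j => l (w j)) ∈ P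

variable {P : Subalgebra S (ℕ → S)} {W E : Type*} [AddCommGroup W] [Module S W]
  [AddCommGroup E] [Module S E]

lemma QFam.const (w : W) : QFam P (fun _ => w) := by
  intro l
  exact P.algebraMap_mem (l w)

lemma QFam.add {v w : ℕ → W} (hv : QFam P v) (hw : QFam P w) : QFam P (fun j => v j + w j) := by
  intro l
  have := P.add_mem (hv l) (hw l)
  convert this using 1
  ext j; simp

lemma QFam.sub {v w : ℕ → W} (hv : QFam P v) (hw : QFam P w) : QFam P (fun j => v j - w j) := by
  intro l
  have := P.sub_mem (hv l) (hw l)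
  convert this using 1
  ext j; simp

lemma QFam.smul {F : ℕ → S} {w : ℕ → W} (hF : F ∈ P) (hw : QFam P w) :
    QFam P (fun j => F j • w j) := by
  intro l
  have := P.mul_mem hF (hw l)
  convert this using 1
  ext j; simp

lemma QFam.map (f : W →ₗ[S] E) {w : ℕ → W} (hw : QFam P w) : QFam P (fun j => f (w j)) := by
  intro l
  exact hw (l ∘ₗ f)

lemma QFam.sum {ι : Type*} (s : Finset ι) {w : ι → ℕ → W} (hw : ∀ i ∈ s, QFam P (w i)) :
    QFam P (fun j => ∑ i ∈ s, w i j) := by
  intro l
  have : (fun j => l (∑ i ∈ s, w i j)) = ∑ i ∈ s, (fun j => l (w i j)) := by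
    ext j; simp
  rw [this]
  exact P.sum_mem (fun i hi => hw i hi l)

/-- Families in a free module are tested coordinatewise. -/
lemma QFam.of_basis {ι : Type*} [Finite ι] (b : Module.Basis ι S W) {w : ℕ → W}
    (h : ∀ i, (fun j => b.repr (w j) i) ∈ P) : QFam P w := by
  classical
  cases nonempty_fintype ι
  intro l
  have : (fun j => l (w j)) = ∑ i, (l (b i)) • (fun j => b.repr (w j) i) := by
    ext j
    have h1 : l (w j) = l (∑ i, b.repr (w j) i • b i) := by rw [b.sum_repr (w j)]
    rw [h1, map_sum]
    simp [mul_comm]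
  rw [this]
  exact P.sum_mem (fun i _ => P.smul_mem (h i) _)

/-- Determinant of a square matrix with entries in `P` is in `P`. -/
lemma det_mem {n : Type*} [Fintype n] [DecidableEq n] (M : ℕ → Matrix n n S)
    (hM : ∀ a b, (fun j => M j a b) ∈ P) : (fun j => (M j).det) ∈ P := by
  have : (fun j => (M j).det) =
      ∑ σ : Equiv.Perm n, ((Equiv.Perm.sign σ : ℤ) : S) • ∏ i, (fun j => M j (σ i) i) := by
    ext j
    simp only [Matrix.det_apply, Finset.sum_apply, Pi.smul_apply, Finset.prod_apply]
    refine Finset.sum_congr rfl (fun σ _ => ?_)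
    rw [Units.smul_def, zsmul_eq_mul, smul_eq_mul]
  rw [this]
  exact P.sum_mem (fun σ _ => P.smul_mem (P.prod_mem (fun i _ => hM _ _)) _)

/-- Entries of the adjugate of a matrix with entries in `P` are in `P`. -/
lemma adjugate_mem {n : Type*} [Fintype n] [DecidableEq n] (M : ℕ → Matrix n n S)
    (hM : ∀ a b, (fun j => M j a b) ∈ P) (a b : n) : (fun j => (M j).adjugate a b) ∈ P := by
  simp only [Matrix.adjugate_apply]
  refine det_mem _ (fun c d => ?_)
  by_cases hcd : c = b
  · subst hcd
    simp only [Matrix.updateRow_self]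
    exact P.algebraMap_mem _
  · simp only [Matrix.updateRow_ne hcd]
    exact hM c d

lemma det_QFam {r : ℕ} (w : ℕ → Matrix (Fin r) (Fin r) S) (hw : QFam P w) :
    (fun j => (w j).det) ∈ P := by
  refine det_mem w (fun a b => ?_)
  exact hw (Matrix.entryLinearMap S S a b)

end Fam

section Alg

variable {S : Type*} [CommRing S] {W : Type*} [AddCommGroup W] [Module S W]
  [Module.Finite S W] [Module.Free S W]

/-- The finitely generated algebra of functions generated by the coordinates of a sequence. -/
lemma exists_alg (ρ : ℕ → W) : ∃ P : Subalgebra S (ℕ → S), P.FG ∧ QFam P ρ := by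
  classical
  let b := Module.Free.chooseBasis S W
  refine ⟨Algebra.adjoin S (Set.range (fun i => fun j => b.repr (ρ j) i)), ?_, ?_⟩
  · refine ⟨(Set.finite_range (fun i => fun j => b.repr (ρ j) i)).toFinset, ?_⟩
    rw [Set.Finite.coe_toFinset]
  · refine QFam.of_basis b (fun i => ?_)
    exact Algebra.subset_adjoin ⟨i, rfl⟩

end Alg

end H42.D2
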