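import Mathlib

/-!
# Job D2-06: a minor not divisible by a prime / a unit minor (helper42, MP_d7d607_ag)

Adapt the proof of `H96.RM.exists_minor` (file `Pool/Agent/H96/RM/Minor.lean`).
`exists_minor_prime`: `κ = FractionRing (S ⧸ Ideal.span {p})` (the quotient is a domain: `Ideal.span_singleton_prime`).  The
rows of the reduced matrix are linearly independent over `κ`: clear denominators in a relation
(`IsLocalization.exist_integer_multiples_of_finset` or `LinearIndependent` transfer
`LinearIndependent.iff_fractionRing`), lift the coefficients from `S ⧸ (p)` to `S`, and use `h`.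
`exists_minor_unit`: `κ = ResidueField S`.
-/

set_option autoImplicit false
set_option linter.unusedVariables false

namespace H42.D2

/-- a nonzero maximal minor over a field -/
theorem minorP_field {k : Type*} [Field k] {ι : Type*} [Fintype ι] {r : ℕ}
    (M : Matrix (Fin r) ι k) (hrow : LinearIndependent k M.row) :
    ∃ J : Fin r → ι, Matrix.det (Matrix.of fun i j => M i (J j)) ≠ 0 := by
  have hrank : Module.finrank k (Submodule.span k (Set.range M.col)) = r := by
    rw [← Matrix.rank_eq_finrank_span_cols, hrow.rank_matrix, Fintype.card_fin]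
  obtain ⟨f, hf1, hf3⟩ : ∃ f : Fin r → (Fin r → k),
      (∀ i, f i ∈ Set.range M.col) ∧ LinearIndependent k f := by
    have h5 := Submodule.exists_fun_fin_finrank_span_eq k (Set.range M.col)
    rw [hrank] at h5
    obtain ⟨f, h6, -, h7⟩ := h5
    exact ⟨f, h6, h7⟩
  choose J hJ using hf1
  refine ⟨J, ?_⟩
  set A : Matrix (Fin r) (Fin r) k := Matrix.of fun i j => M i (J j) with hA
  have hcol : A.col = f := by
    funext j
    rw [← hJ j]
    rfl
  rw [← hcol, Matrix.linearIndependent_cols_iff_isUnit, Matrix.isUnit_iff_isUnit_det] at hf3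
  exact hf3.ne_zero

theorem exists_minor_prime {S : Type*} [CommRing S] [IsDomain S] {p : S} (hp : Prime p)
    {ι : Type*} [Fintype ι] [DecidableEq ι] {r : ℕ} (β : Fin r → ι → S)
    (h : ∀ c : Fin r → S, (∀ l, p ∣ ∑ i, c i * β i l) → ∀ i, p ∣ c i) :
    ∃ J : Fin r → ι, ¬ p ∣ Matrix.det (Matrix.of fun i j => β i (J j)) := by
  have hprime : (Ideal.span {p}).IsPrime := (Ideal.span_singleton_prime hp.ne_zero).2 hp
  have hmk : ∀ x : S, Ideal.Quotient.mk (Ideal.span {p}) x = 0 ↔ p ∣ x := by
    intro x
    rw [Ideal.Quotient.eq_zero_iff_mem, Ideal.mem_span_singleton]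
  set R := S ⧸ Ideal.span {p} with hR
  set φ : S →+* FractionRing R :=
    (algebraMap R (FractionRing R)).comp (Ideal.Quotient.mk (Ideal.span {p})) with hφ
  have hinj : Function.Injective (algebraMap R (FractionRing R)) :=
    IsFractionRing.injective R (FractionRing R)
  have hφ0 : ∀ x : S, φ x = 0 ↔ p ∣ x := by
    intro x
    rw [hφ, RingHom.comp_apply, map_eq_zero_iff _ hinj, hmk]
  set M : Matrix (Fin r) ι (FractionRing R) := Matrix.of fun i l => φ (β i l) with hM
  have hrow : LinearIndependent (FractionRing R) M.row := by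
    rw [← LinearIndependent.iff_fractionRing R (FractionRing R), Fintype.linearIndependent_iff]
    intro g hg i
    choose c hc using fun i => Ideal.Quotient.mk_surjective (g i)
    have h1 : ∀ l, p ∣ ∑ i, c i * β i l := by
      intro l
      rw [← hφ0, map_sum]
      have h2 := congrFun hg l
      rw [Finset.sum_apply] at h2
      rw [← h2.trans (Pi.zero_apply l)]
      refine Finset.sum_congr rfl fun i _ => ?_
      rw [map_mul, Pi.smul_apply, Algebra.smul_def, ← hc i]
      rfl
    rw [← hc i]
    exact (hmk _).2 (h c h1 i)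
  obtain ⟨J, hJ⟩ := minorP_field M hrow
  refine ⟨J, fun hdvd => hJ ?_⟩
  have h3 := (hφ0 _).2 hdvd
  rw [RingHom.map_det] at h3
  exact h3

theorem exists_minor_unit {S : Type*} [CommRing S] [IsLocalRing S]
    {ι : Type*} [Fintype ι] [DecidableEq ι] {r : ℕ} (β : Fin r → ι → S)
    (h : ∀ c : Fin r → S, (∀ l, ∑ i, c i * β i l ∈ IsLocalRing.maximalIdeal S) →
      ∀ i, c i ∈ IsLocalRing.maximalIdeal S) :
    ∃ J : Fin r → ι, IsUnit (Matrix.det (Matrix.of fun i j => β i (J j))) := by
  have hres : ∀ x : S, IsLocalRing.residue S x = 0 ↔ x ∈ IsLocalRing.maximalIdeal S :=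
    fun x => Ideal.Quotient.eq_zero_iff_mem
  set M : Matrix (Fin r) ι (IsLocalRing.ResidueField S) :=
    Matrix.of fun i l => IsLocalRing.residue S (β i l) with hM
  have hrow : LinearIndependent (IsLocalRing.ResidueField S) M.row := by
    rw [Fintype.linearIndependent_iff]
    intro g hg i
    choose c hc using fun i => IsLocalRing.residue_surjective (g i)
    have h1 : ∀ l, ∑ i, c i * β i l ∈ IsLocalRing.maximalIdeal S := by
      intro l
      rw [← hres, map_sum]
      have h2 := congrFun hg l
      rw [Finset.sum_apply] at h2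
      rw [← h2.trans (Pi.zero_apply l)]
      refine Finset.sum_congr rfl fun i _ => ?_
      rw [map_mul, hc]
      rfl
    rw [← hc i, hres]
    exact h c h1 i
  obtain ⟨J, hJ⟩ := minorP_field M hrow
  refine ⟨J, ?_⟩
  rw [← IsLocalRing.residue_ne_zero_iff_isUnit, RingHom.map_det]
  exact hJ

end H42.D2
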