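import Mathlib
import Pool.Agent.H42.D2.Fam
import Pool.Agent.H42.D2.MinorP

/-!
# Job D2-10: moving kernel elements (helper42, MP_d7d607_ag)

Model: `H42.exists_ker_elt` in `Pool/Agent/H42/Select.lean` (same statement over a field).  Here over a domain `S`.
`b` a basis of `E` indexed by `Fin q` (or its own finite index type `ι`).  Hypothesis `hw` says that the vectors
`Θ m (w i)` are independent modulo `p`: `exists_minor_prime` with `β i l = b.repr (Θ m (w i)) l` gives `J : Fin r → ι` such that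
`p ∤ det (b.repr (Θ m (w i)) (J j))`.  Let `L : E →ₗ (Fin r → S)`, `L z i = b.repr z (J i)`, `M j` the `r × r` matrix
`M j i k = L (Θ j (w k)) i`, `Δ j = det (M j)` (so `p ∤ Δ m`, transpose), and
`y j = Δ j • u₀ - ∑ k, (adj (M j) * L (Θ j u₀)) k • w k`.  All entries are in `P`, `y` is a `QFam`, `y m = Δ m • u₀`.
`L (Θ j (y j)) = 0` (`M * adj M = det M`).  `F j = Δ j * D (y j)`: in `P`, `p ∤ F m` by `hD0`.
If `F j ≠ 0` then `Δ j ≠ 0`; `finrank (range (Θ j)) ≤ r` forces `L` to be injective on `range (Θ j)`: `L ∘ Θ j` composed with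
`S^r → W, c ↦ ∑ c_k w_k` is `M j`, injective, so `finrank (range (L ∘ Θ j)) ≥ r`; by rank-nullity (domain) for
`L` restricted to `range (Θ j)` its kernel has rank `0`, and a torsion-free module of rank `0` is zero.
Hence `Θ j (y j) = 0`, and `D (y j) ∣ F j`.
-/

set_option autoImplicit false
set_option linter.unusedVariables false

namespace H42.D2

theorem ker_eq_of_minor {S : Type*} [CommRing S] [IsDomain S] [IsNoetherianRing S]
    {W E : Type*} [AddCommGroup W] [Module S W] [AddCommGroup E] [Module S E]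
    [Module.Finite S E] [Module.Free S E] (θ : W →ₗ[S] E) {r : ℕ}
    (L : E →ₗ[S] (Fin r → S)) (Rr : (Fin r → S) →ₗ[S] W)
    (hdet : (LinearMap.toMatrix' (L ∘ₗ θ ∘ₗ Rr)).det ≠ 0)
    (hr : Module.finrank S (LinearMap.range θ) ≤ r) (u : W) (hu : L (θ u) = 0) : θ u = 0 := by
  have hinj : Function.Injective (L ∘ₗ θ ∘ₗ Rr) := by
    rw [← LinearMap.ker_eq_bot, LinearMap.ker_eq_bot']
    intro v hv
    have h1 : (LinearMap.toMatrix' (L ∘ₗ θ ∘ₗ Rr)).mulVec v = 0 := by
      rw [LinearMap.toMatrix'_mulVec]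
      exact hv
    exact Matrix.eq_zero_of_mulVec_eq_zero hdet h1
  let g : LinearMap.range θ →ₗ[S] (Fin r → S) := L.domRestrict (LinearMap.range θ)
  have hg1 : r ≤ Module.finrank S (LinearMap.range g) := by
    let h : (Fin r → S) →ₗ[S] LinearMap.range g :=
      LinearMap.codRestrict (LinearMap.range g) (L ∘ₗ θ ∘ₗ Rr) (fun c =>
        ⟨⟨θ (Rr c), ⟨Rr c, rfl⟩⟩, rfl⟩)
    have hh : Function.Injective h := by
      intro c c' hcc
      apply hinj
      exact congrArg Subtype.val hcc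
    have h2 := LinearMap.finrank_le_finrank_of_injective hh
    rwa [Module.finrank_fin_fun] at h2
  have hg2 : Module.finrank S (LinearMap.range g) + Module.finrank S (LinearMap.ker g) =
      Module.finrank S (LinearMap.range θ) := by
    have h4 := Submodule.finrank_quotient_add_finrank (LinearMap.ker g)
    rwa [(LinearMap.quotKerEquivRange g).finrank_eq] at h4
  have hg3 : Module.finrank S (LinearMap.ker g) = 0 := by omega
  rw [Submodule.finrank_eq_zero] at hg3
  have h3 : (⟨θ u, ⟨u, rfl⟩⟩ : LinearMap.range θ) ∈ LinearMap.ker g := hu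
  rw [hg3, Submodule.mem_bot] at h3
  exact congrArg Subtype.val h3

theorem exists_ker_elt {S : Type*} [CommRing S] [IsDomain S] [IsNoetherianRing S]
    {P : Subalgebra S (ℕ → S)} {W E : Type*}
    [AddCommGroup W] [Module S W] [AddCommGroup E] [Module S E] [Module.Finite S W]
    [Module.Free S W] [Module.Finite S E] [Module.Free S E]
    (Θ : ℕ → (W →ₗ[S] E)) (hΘ : ∀ w, QFam P (fun j => Θ j w)) (m : ℕ) {p : S} (hp : Prime p)
    {r : ℕ} (w : Fin r → W)
    (hw : ∀ c : Fin r → S, (∃ z, Θ m (∑ i, c i • w i) = p • z) → ∀ i, p ∣ c i)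
    (u₀ : W) (hu₀ : Θ m u₀ = 0) (D : W → S)
    (hD : ∀ v : ℕ → W, QFam P v → (fun j => D (v j)) ∈ P)
    (hD0 : ∀ c : S, ¬ p ∣ c → ¬ p ∣ D (c • u₀)) :
    ∃ F ∈ P, ¬ p ∣ F m ∧ ∀ j, F j ≠ 0 →
      Module.finrank S (LinearMap.range (Θ j)) ≤ r → ∃ u, Θ j u = 0 ∧ D u ∣ F j := by
  classical
  let b := Module.Free.chooseBasis S E
  have hβ : ∀ c : Fin r → S, (∀ l, p ∣ ∑ i, c i * b.repr (Θ m (w i)) l) → ∀ i, p ∣ c i := by
    intro c hc
    apply hw c
    choose z hz using hc
    refine ⟨∑ l, z l • b l, ?_⟩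
    apply b.repr.injective
    refine Finsupp.ext (fun l => ?_)
    have h1 : b.repr (Θ m (∑ i, c i • w i)) l = ∑ i, c i * b.repr (Θ m (w i)) l := by
      simp [map_sum, Finsupp.finsetSum_apply]
    rw [h1, hz l, map_smul, Finsupp.smul_apply, b.repr_sum_self, smul_eq_mul]
  obtain ⟨J, hJ⟩ := exists_minor_prime hp (fun i l => b.repr (Θ m (w i)) l) hβ
  let L : E →ₗ[S] (Fin r → S) := LinearMap.pi (fun i => b.coord (J i))
  let Rr : (Fin r → S) →ₗ[S] W := Fintype.linearCombination S w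
  set Δ : ℕ → Matrix (Fin r) (Fin r) S := fun j => LinearMap.toMatrix' (L ∘ₗ Θ j ∘ₗ Rr) with hΔ
  have hRr : ∀ k, Rr (Pi.single k 1) = w k := by
    intro k
    simp [Rr, Fintype.linearCombination_apply_single]
  have hΔmem : ∀ a c, (fun j => Δ j a c) ∈ P := by
    intro a c
    simp only [hΔ, LinearMap.toMatrix'_apply, LinearMap.comp_apply]
    exact hΘ (Rr _) ((LinearMap.proj a) ∘ₗ L)
  have hdet : (fun j => (Δ j).det) ∈ P := det_mem _ hΔmem
  have hΔm : ¬ p ∣ (Δ m).det := by
    have h1 : Δ m = (Matrix.of fun i j => b.repr (Θ m (w i)) (J j)).transpose := by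
      ext a c
      simp only [hΔ, LinearMap.toMatrix'_apply, LinearMap.comp_apply, Matrix.transpose_apply,
        Matrix.of_apply]
      rw [hRr]
      rfl
    rw [h1, Matrix.det_transpose]
    exact hJ
  -- the moving solution
  let y : ℕ → W := fun j => (Δ j).det • u₀ - Rr ((Δ j).adjugate.mulVec (L (Θ j u₀)))
  have hy : QFam P y := by
    refine QFam.sub (QFam.smul hdet (QFam.const u₀)) (QFam.map Rr ?_)
    refine QFam.of_basis (Pi.basisFun S _) (fun i => ?_)
    simp only [Pi.basisFun_repr, Matrix.mulVec, dotProduct]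
    have : (fun j => ∑ k, (Δ j).adjugate i k * L (Θ j u₀) k) =
        ∑ k, (fun j => (Δ j).adjugate i k) * (fun j => L (Θ j u₀) k) := by
      ext j; simp
    rw [this]
    refine P.sum_mem (fun k _ => P.mul_mem (adjugate_mem _ hΔmem i k) ?_)
    exact hΘ u₀ ((LinearMap.proj k) ∘ₗ L)
  have hym : y m = (Δ m).det • u₀ := by
    simp only [y, hu₀, map_zero, Matrix.mulVec_zero]
    simp
  have hyker : ∀ j, L (Θ j (y j)) = 0 := by
    intro j
    have h1 : L (Θ j (Rr ((Δ j).adjugate.mulVec (L (Θ j u₀))))) =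
        (Δ j).mulVec ((Δ j).adjugate.mulVec (L (Θ j u₀))) := by
      have := LinearMap.toMatrix'_mulVec (L ∘ₗ Θ j ∘ₗ Rr) ((Δ j).adjugate.mulVec (L (Θ j u₀)))
      rw [this]
      rfl
    simp only [y, map_sub, map_smul]
    rw [h1, Matrix.mulVec_mulVec, Matrix.mul_adjugate, Matrix.smul_mulVec, Matrix.one_mulVec]
    simp
  refine ⟨fun j => (Δ j).det * D (y j), P.mul_mem hdet (hD y hy), ?_, ?_⟩
  · show ¬ p ∣ (Δ m).det * D (y m)
    rw [hym]
    intro h
    rcases hp.dvd_or_dvd h with h1 | h1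
    · exact hΔm h1
    · exact hD0 _ hΔm h1
  · intro j hj hrank
    have hj1 : (Δ j).det ≠ 0 := left_ne_zero_of_mul hj
    exact ⟨y j, ker_eq_of_minor (Θ j) L Rr hj1 hrank (y j) (hyker j), dvd_mul_left _ _⟩

end H42.D2
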