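import Mathlib
import Pool.Agent.H42.D2.Base

/-!
# Job D2-09: ranks over a domain (helper42, MP_d7d607_ag)

`finrank_Hm_le`: `V ∈ Hm σ τ` with `det V ≠ 0` gives the injective map `U ↦ V * U : Hm ρ σ → Hm ρ τ` (`V U = 0` implies
`adj V * V * U = det V • U = 0`); similarly on the other side (`U ↦ U * adj V`).
(`LinearMap.finrank_le_finrank_of_injective`, `Hm` is finite as `S` is Noetherian and `Mat` is finite.)
`finrank_Hm_eq` : both inequalities with `Gn.symm`.
`finrank_range_d0`: rank-nullity over a domain (`LinearMap.finrank_range_add_finrank_ker`, there is an instance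
`HasRankNullity` for domains) and `Hm_eq_ker`.
-/

set_option autoImplicit false
set_option linter.unusedVariables false

namespace H42.D2

variable {S : Type*} [CommRing S] [IsDomain S] [IsNoetherianRing S] {R : Type*} [Ring R]
  [Algebra S R] {e : ℕ}

omit [IsNoetherianRing S] in
theorem rankeq_left_inj {V : Matrix (Fin e) (Fin e) S} (hV : V.det ≠ 0)
    {U : Matrix (Fin e) (Fin e) S} (h : V * U = 0) : U = 0 := by
  have h1 : V.det • U = 0 := by
    have h2 : V.adjugate * (V * U) = 0 := by rw [h, Matrix.mul_zero]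
    rw [← Matrix.mul_assoc, Matrix.adjugate_mul, Matrix.smul_mul, Matrix.one_mul] at h2
    exact h2
  exact (smul_eq_zero.1 h1).resolve_left hV

omit [IsNoetherianRing S] in
theorem rankeq_right_inj {V : Matrix (Fin e) (Fin e) S} (hV : V.det ≠ 0)
    {U : Matrix (Fin e) (Fin e) S} (h : U * V = 0) : U = 0 := by
  have h1 : V.det • U = 0 := by
    have h2 : (U * V) * V.adjugate = 0 := by rw [h, Matrix.zero_mul]
    rw [Matrix.mul_assoc, Matrix.mul_adjugate, Matrix.mul_smul, Matrix.mul_one] at h2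
    exact h2
  exact (smul_eq_zero.1 h1).resolve_left hV

theorem rankeq_le_right (ρ : R →ₐ[S] Matrix (Fin e) (Fin e) S)
    {σ τ : R →ₐ[S] Matrix (Fin e) (Fin e) S} (h : Gn σ τ) :
    Module.finrank S (Hm ρ σ) ≤ Module.finrank S (Hm ρ τ) := by
  obtain ⟨V, hV, hd⟩ := h
  let f : Hm ρ σ →ₗ[S] Hm ρ τ :=
    { toFun := fun U => ⟨V * (U : Matrix (Fin e) (Fin e) S), mul_mem_Hm U.2 hV⟩
      map_add' := fun U U' => Subtype.ext (Matrix.mul_add V _ _)
      map_smul' := fun c U => Subtype.ext (Matrix.mul_smul V c _) }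
  apply LinearMap.finrank_le_finrank_of_injective (f := f)
  rw [injective_iff_map_eq_zero]
  intro U hU
  exact Subtype.ext (rankeq_left_inj hd (congrArg Subtype.val hU))

theorem rankeq_le_left {ρ σ : R →ₐ[S] Matrix (Fin e) (Fin e) S} (h : Gn ρ σ)
    (τ : R →ₐ[S] Matrix (Fin e) (Fin e) S) :
    Module.finrank S (Hm σ τ) ≤ Module.finrank S (Hm ρ τ) := by
  obtain ⟨V, hV, hd⟩ := h
  let f : Hm σ τ →ₗ[S] Hm ρ τ :=
    { toFun := fun U => ⟨(U : Matrix (Fin e) (Fin e) S) * V, mul_mem_Hm hV U.2⟩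
      map_add' := fun U U' => Subtype.ext (Matrix.add_mul _ _ V)
      map_smul' := fun c U => Subtype.ext (Matrix.smul_mul c _ V) }
  apply LinearMap.finrank_le_finrank_of_injective (f := f)
  rw [injective_iff_map_eq_zero]
  intro U hU
  exact Subtype.ext (rankeq_right_inj hd (congrArg Subtype.val hU))

theorem finrank_Hm_eq_right (ρ : R →ₐ[S] Matrix (Fin e) (Fin e) S)
    {σ τ : R →ₐ[S] Matrix (Fin e) (Fin e) S} (h : Gn σ τ) :
    Module.finrank S (Hm ρ σ) = Module.finrank S (Hm ρ τ) := by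
  exact le_antisymm (rankeq_le_right ρ h) (rankeq_le_right ρ h.symm)

theorem finrank_Hm_eq_left {ρ σ : R →ₐ[S] Matrix (Fin e) (Fin e) S} (h : Gn ρ σ)
    (τ : R →ₐ[S] Matrix (Fin e) (Fin e) S) :
    Module.finrank S (Hm ρ τ) = Module.finrank S (Hm σ τ) := by
  exact le_antisymm (rankeq_le_left h.symm τ) (rankeq_le_left h τ)

theorem finrank_range_d0 (σ ρ : R →ₐ[S] Matrix (Fin e) (Fin e) S) :
    Module.finrank S (LinearMap.range (d0 σ.toLinearMap ρ.toLinearMap)) +
      Module.finrank S (Hm ρ σ) = e * e := by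
  have h := (LinearMap.ker (d0 σ.toLinearMap ρ.toLinearMap)).finrank_quotient_add_finrank
  rw [LinearEquiv.finrank_eq (d0 σ.toLinearMap ρ.toLinearMap).quotKerEquivRange,
    Module.finrank_matrix] at h
  rw [Hm_eq_ker, h]
  simp

end H42.D2
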