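import Mathlib
import Pool.Agent.H42.D2.Base

/-!
# Job D2-05: kernels and Hom modules are free (helper42, MP_d7d607_ag)

`FK.ker_free`: choose bases of `M` and `N` (`Module.Free.chooseBasis`, finite index types, reindex by `Fin`):
`M ≃ (Fin p → S)`, `N ≃ (Fin q → S)`, `ker f ≃ ker (e' ∘ f ∘ e⁻¹)`.
`FK.hom_free`: `M` finite: `π : (Fin p → S) → M` surjective, `ker π` is finite: `τ : (Fin q → S) → (Fin p → S)` with range
`ker π`.  `(M →ₗ N) ≃ ker (φ ↦ φ ∘ τ : ((Fin p → S) →ₗ N) → ((Fin q → S) →ₗ N))`, a kernel of a map of finite free modules.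
-/

set_option autoImplicit false
set_option linter.unusedVariables false

namespace H42.D2

variable {S : Type*} [CommRing S]

theorem exists_equiv_fin (M : Type*) [AddCommGroup M] [Module S M] [Module.Free S M]
    [Module.Finite S M] : ∃ p : ℕ, Nonempty (M ≃ₗ[S] (Fin p → S)) := by
  rcases subsingleton_or_nontrivial S with h | h
  · have : Subsingleton M := Module.subsingleton S M
    exact ⟨0, ⟨LinearEquiv.ofBijective (0 : M →ₗ[S] (Fin 0 → S))
      ⟨fun _ _ _ => Subsingleton.elim _ _, fun _ => ⟨0, Subsingleton.elim _ _⟩⟩⟩⟩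
  · exact ⟨Module.finrank S M, ⟨(Module.finBasis S M).equivFun⟩⟩

theorem FK.ker_free (h : FK S) {M N : Type*} [AddCommGroup M] [Module S M] [Module.Free S M]
    [Module.Finite S M] [AddCommGroup N] [Module S N] [Module.Free S N] [Module.Finite S N]
    (f : M →ₗ[S] N) : Module.Free S (LinearMap.ker f) := by
  obtain ⟨p, ⟨eM⟩⟩ := exists_equiv_fin (S := S) M
  obtain ⟨q, ⟨eN⟩⟩ := exists_equiv_fin (S := S) N
  have h1 := h p q (eN.toLinearMap ∘ₗ f ∘ₗ eM.symm.toLinearMap)
  have e : LinearMap.ker (eN.toLinearMap ∘ₗ f ∘ₗ eM.symm.toLinearMap) =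
      (LinearMap.ker f).map eM.toLinearMap := by
    ext x
    rw [LinearMap.mem_ker, Submodule.mem_map]
    constructor
    · intro hx
      refine ⟨eM.symm x, ?_, by simp⟩
      rw [LinearMap.mem_ker]
      have : eN (f (eM.symm x)) = 0 := hx
      exact (map_eq_zero_iff eN eN.injective).1 this
    · rintro ⟨y, hy, rfl⟩
      rw [LinearMap.mem_ker] at hy
      simp [hy]
  rw [e] at h1
  exact Module.Free.of_equiv (eM.submoduleMap (LinearMap.ker f)).symm

theorem FK.hom_free [IsNoetherianRing S] (h : FK S) (M N : Type*) [AddCommGroup M] [Module S M]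
    [Module.Finite S M] [AddCommGroup N] [Module S N] [Module.Free S N] [Module.Finite S N] :
    Module.Free S (M →ₗ[S] N) := by
  obtain ⟨p, π, hπ⟩ := Module.Finite.exists_fin' S M
  have hfin : Module.Finite S (LinearMap.ker π) := inferInstance
  obtain ⟨q, τ, hτ⟩ := Module.Finite.exists_fin' S (LinearMap.ker π)
  let T : (Fin q → S) →ₗ[S] (Fin p → S) := (LinearMap.ker π).subtype ∘ₗ τ
  let Ψ : ((Fin p → S) →ₗ[S] N) →ₗ[S] ((Fin q → S) →ₗ[S] N) := LinearMap.lcomp S N T
  have h1 : Module.Free S (LinearMap.ker Ψ) := h.ker_free Ψ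
  have h2 : LinearMap.ker Ψ = LinearMap.range (LinearMap.lcomp S N π) := by
    ext φ
    rw [LinearMap.mem_ker]
    constructor
    · intro hφ
      have hk : LinearMap.ker π ≤ LinearMap.ker φ := by
        intro x hx
        obtain ⟨y, hy⟩ := hτ ⟨x, hx⟩
        have h3 := LinearMap.congr_fun hφ y
        rw [LinearMap.mem_ker]
        have h4 : T y = x := by
          change ((τ y : LinearMap.ker π) : Fin p → S) = x
          rw [hy]
        have h5 : φ (T y) = 0 := h3
        rw [h4] at h5
        exact h5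
      let e := π.quotKerEquivOfSurjective hπ
      refine ⟨(LinearMap.ker π).liftQ φ hk ∘ₗ e.symm.toLinearMap, ?_⟩
      refine LinearMap.ext fun x => ?_
      change (LinearMap.ker π).liftQ φ hk (e.symm (π x)) = φ x
      have h6 : e.symm (π x) = Submodule.Quotient.mk x := by
        rw [LinearEquiv.symm_apply_eq]
        rfl
      rw [h6]
      rfl
    · rintro ⟨ψ, rfl⟩
      refine LinearMap.ext fun x => ?_
      change ψ (π (τ x : Fin p → S)) = 0
      have h7 : π (τ x : Fin p → S) = 0 := (τ x).2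
      rw [h7, map_zero]
  rw [h2] at h1
  have hinj : Function.Injective (LinearMap.lcomp S N π) := by
    intro a b hab
    ext x
    obtain ⟨y, rfl⟩ := hπ x
    exact LinearMap.congr_fun hab y
  exact Module.Free.of_equiv (LinearEquiv.ofInjective _ hinj).symm

end H42.D2
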