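import Mathlib
import Pool.Agent.H42.D2.HomFree

/-!
# Job D2-07: the image of `d0` for a rigid representation (helper42, MP_d7d607_ag)

Write `T = R →ₗ[S] Mat`, free and finite by `FK.hom_free`; also `R →ₗ[S] T` is free and finite.
`range_d0_eq`: `range (d0 ρ ρ) = ker (d1 ρ ρ)`: `≤` by multiplicativity of `ρ` (see the proof of `H42.exists_iso_of_rigid` in
`Pool/Agent/H42/Rep.lean`), `≥` is rigidity.
`range_d0_free`: by `FK.ker_free` applied to `d1 ρ ρ`.
`exists_split`: `z` a basis of `range (d0 ρ ρ)` indexed by `Fin r`, `w i` preimages (`d0 (w i) = z i`).  If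
`d0 (∑ c_i w_i) = p • z'` then `p • d1 z' = 0`, so `d1 z' = 0` (values in `Mat S`, `S` a domain, `p ≠ 0`), so
`z' = ∑ b_i z_i` is in the range and `∑ (c_i - p b_i) z_i = 0`, `c_i = p b_i`.
`exists_proj`: `d0 : Mat → range (d0)` is surjective onto a free (projective) module: it has a section `s`
(`Module.projective_lifting_property`), `π U = U - s (d0 U)`.
-/

set_option autoImplicit false
set_option linter.unusedVariables false

namespace H42.D2

variable {S : Type*} [CommRing S] [IsDomain S] [IsNoetherianRing S] {R : Type*} [Ring R]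
  [Algebra S R] [Module.Finite S R] {e : ℕ}

omit [IsDomain S] [IsNoetherianRing S] [Module.Finite S R] in
theorem range_d0_eq (ρ : R →ₐ[S] Matrix (Fin e) (Fin e) S) (hρ : Rig ρ) :
    LinearMap.range (d0 ρ.toLinearMap ρ.toLinearMap) =
      LinearMap.ker (d1 ρ.toLinearMap ρ.toLinearMap) := by
  apply le_antisymm
  · rintro _ ⟨U, rfl⟩
    rw [LinearMap.mem_ker]
    ext1 a; ext1 b
    simp only [d1_apply, d0_apply, AlgHom.toLinearMap_apply, map_mul, LinearMap.zero_apply,
      mul_sub, sub_mul, mul_assoc]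
    abel
  · intro D hD
    obtain ⟨U, hU⟩ := hρ D (fun a b => by
      have := LinearMap.congr_fun (LinearMap.congr_fun (LinearMap.mem_ker.mp hD) a) b
      simp only [d1_apply, LinearMap.zero_apply, AlgHom.toLinearMap_apply] at this
      rw [← sub_eq_zero]
      rw [← neg_eq_zero, ← this]
      abel)
    exact ⟨U, by ext1 a; simp [hU a]⟩

omit [IsDomain S] in
theorem range_d0_free (h : FK S) (ρ : R →ₐ[S] Matrix (Fin e) (Fin e) S) (hρ : Rig ρ) :
    Module.Free S (LinearMap.range (d0 ρ.toLinearMap ρ.toLinearMap)) := by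
  have h1 : Module.Free S (R →ₗ[S] Matrix (Fin e) (Fin e) S) :=
    h.hom_free R (Matrix (Fin e) (Fin e) S)
  have h2 : Module.Free S (R →ₗ[S] R →ₗ[S] Matrix (Fin e) (Fin e) S) :=
    h.hom_free R (R →ₗ[S] Matrix (Fin e) (Fin e) S)
  rw [range_d0_eq ρ hρ]
  exact h.ker_free (M := R →ₗ[S] Matrix (Fin e) (Fin e) S)
    (N := R →ₗ[S] R →ₗ[S] Matrix (Fin e) (Fin e) S) (d1 ρ.toLinearMap ρ.toLinearMap)

theorem exists_split (h : FK S) (ρ : R →ₐ[S] Matrix (Fin e) (Fin e) S) (hρ : Rig ρ) :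
    ∃ (r : ℕ) (w : Fin r → Matrix (Fin e) (Fin e) S),
      Module.finrank S (LinearMap.range (d0 ρ.toLinearMap ρ.toLinearMap)) = r ∧
      ∀ p : S, Prime p → ∀ c : Fin r → S,
        (∃ z, d0 ρ.toLinearMap ρ.toLinearMap (∑ i, c i • w i) = p • z) → ∀ i, p ∣ c i := by
  classical
  have hfree := range_d0_free h ρ hρ
  let b := Module.finBasis S (LinearMap.range (d0 ρ.toLinearMap ρ.toLinearMap))
  choose w hw using fun i => (b i).2
  refine ⟨_, w, rfl, fun p hp c hc i => ?_⟩
  obtain ⟨z, hz⟩ := hc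
  have h1 : d1 ρ.toLinearMap ρ.toLinearMap z = 0 := by
    have h2 : d1 ρ.toLinearMap ρ.toLinearMap (p • z) = 0 := by
      rw [← hz]
      exact (range_d0_eq ρ hρ).le ⟨_, rfl⟩
    rw [map_smul] at h2
    ext1 a; ext1 b'
    have h3 := LinearMap.congr_fun (LinearMap.congr_fun h2 a) b'
    simp only [LinearMap.smul_apply, LinearMap.zero_apply] at h3 ⊢
    exact (smul_eq_zero.mp h3).resolve_left hp.ne_zero
  have h2 : z ∈ LinearMap.range (d0 ρ.toLinearMap ρ.toLinearMap) :=
    (range_d0_eq ρ hρ).ge h1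
  have h3 : ∑ i, c i • b i = p • (⟨z, h2⟩ : LinearMap.range (d0 ρ.toLinearMap ρ.toLinearMap)) := by
    apply Subtype.ext
    rw [Submodule.coe_smul, ← hz, map_sum, Submodule.coe_sum]
    refine Finset.sum_congr rfl (fun i _ => ?_)
    rw [map_smul, hw, Submodule.coe_smul]
  have h4 := congrArg (fun v => b.repr v i) h3
  simp only [map_smul, Finsupp.smul_apply, b.repr_sum_self, smul_eq_mul] at h4
  exact ⟨_, h4⟩

theorem exists_proj (h : FK S) (ρ : R →ₐ[S] Matrix (Fin e) (Fin e) S) (hρ : Rig ρ) :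
    ∃ π : Matrix (Fin e) (Fin e) S →ₗ[S] Matrix (Fin e) (Fin e) S,
      (∀ U, π U ∈ Hm ρ ρ) ∧ ∀ U ∈ Hm ρ ρ, π U = U := by
  have hfree := range_d0_free h ρ hρ
  obtain ⟨s, hs⟩ := Module.projective_lifting_property
    (d0 ρ.toLinearMap ρ.toLinearMap).rangeRestrict LinearMap.id
    (LinearMap.surjective_rangeRestrict _)
  have hs' : ∀ y, (d0 ρ.toLinearMap ρ.toLinearMap).rangeRestrict (s y) = y := fun y =>
    LinearMap.congr_fun hs y
  refine ⟨LinearMap.id - s ∘ₗ (d0 ρ.toLinearMap ρ.toLinearMap).rangeRestrict, fun U => ?_,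
    fun U hU => ?_⟩
  · rw [Hm_eq_ker, ← LinearMap.ker_rangeRestrict, LinearMap.mem_ker, LinearMap.sub_apply,
      LinearMap.id_apply, LinearMap.comp_apply, map_sub, hs', sub_self]
  · rw [Hm_eq_ker, ← LinearMap.ker_rangeRestrict, LinearMap.mem_ker] at hU
    rw [LinearMap.sub_apply, LinearMap.id_apply, LinearMap.comp_apply, hU, map_zero, sub_zero]

end H42.D2
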