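import Mathlib
import Pool.Agent.H42.D2.Fam
import Pool.Agent.H42.D2.SplitW
import Pool.Agent.H42.D2.RankEq
import Pool.Agent.H42.D2.KerElt

/-!
# Pairs of representations which are locally isomorphic (seat helper42, MP_d7d607_ag)
-/

set_option autoImplicit false
set_option linter.unusedSectionVars false

namespace H42.D2

variable {S : Type*} [CommRing S] [IsDomain S] [IsNoetherianRing S] {R : Type*} [Ring R]
  [Algebra S R] [Module.Finite S R] {e : ℕ}

theorem exists_loc_pair (h : FK S) (ρ : ℕ → (R →ₐ[S] Matrix (Fin e) (Fin e) S))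
    (hρ : ∀ i, Rig (ρ i)) (hgn : ∀ i j, Gn (ρ i) (ρ j)) (p : ℕ → S) (hp : ∀ n, Prime (p n)) :
    ∃ n m, n < m ∧ Loc (p m) (ρ n) (ρ m) := by
  classical
  have hfree : Module.Free S (R →ₗ[S] Matrix (Fin e) (Fin e) S) := h.hom_free _ _
  obtain ⟨P, hPfg, hP⟩ := exists_alg (S := S) (W := R →ₗ[S] Matrix (Fin e) (Fin e) S)
    (fun j => (ρ j).toLinearMap)
  obtain ⟨m, hm⟩ := exists_selection P hPfg (fun j => Ideal.span {p j})
  have hΘ : ∀ U, QFam P (fun j => d0 (ρ j).toLinearMap (ρ m).toLinearMap U) := by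
    intro U
    have h1 : (fun j => d0 (ρ j).toLinearMap (ρ m).toLinearMap U) = fun j =>
        t0 U (ρ j).toLinearMap - (t0 U (ρ m).toLinearMap -
          d0 (ρ m).toLinearMap (ρ m).toLinearMap U) := by
      ext j a : 2
      simp [t0]
    rw [h1]
    exact QFam.sub (QFam.map _ hP) (QFam.const _)
  obtain ⟨r, w, hr, hw⟩ := exists_split h (ρ m) (hρ m)
  obtain ⟨F, hFP, hFm, hF⟩ := exists_ker_elt
    (fun j => d0 (ρ j).toLinearMap (ρ m).toLinearMap) hΘ m (hp m) w (hw (p m) (hp m)) 1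
    (by ext1 a; simp) Matrix.det (fun w hw => det_QFam w hw) (by
      intro c hc hdvd
      rw [Matrix.det_smul, Matrix.det_one, mul_one] at hdvd
      exact hc ((hp m).dvd_of_dvd_pow hdvd))
  obtain ⟨j, hmj, hFj⟩ := hm F hFP (by rwa [Ideal.mem_span_singleton])
  rw [Ideal.mem_span_singleton] at hFj
  have hFj0 : F j ≠ 0 := fun h0 => hFj (h0 ▸ dvd_zero _)
  obtain ⟨u, hu, hdvd⟩ := hF j hFj0 (by
    have h1 := finrank_range_d0 (ρ j) (ρ m)
    have h2 := finrank_range_d0 (ρ m) (ρ m)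
    have h3 := finrank_Hm_eq_right (ρ m) (hgn m j)
    omega)
  refine ⟨m, j, hmj, u, ?_, fun h4 => hFj (h4.trans hdvd)⟩
  rw [Hm_eq_ker]
  exact hu

end H42.D2
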