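import Mathlib
import Pool.Agent.H42.D2.Base

/-!
# Job D2-04: `FK` implies factorial (helper42, MP_d7d607_ag)

`exists_lcm`: for `a, b ≠ 0` let `L = ker ((s, t) ↦ a s - b t : S² → S)`, free by `FK` (as a map `(Fin 2 → S) → (Fin 1 → S)`)
and finite.  The first projection `L → S` is injective (domain), so `L` is isomorphic to a nonzero ideal `J = {s | b ∣ a s}`;
any two elements `u, v` of an ideal are linearly dependent (`v • u - u • v = 0`), so a basis of `J` has exactly one element
`s₀`: `J = (s₀)`.  Then `c = a s₀` satisfies `a ∣ d ∧ b ∣ d ↔ c ∣ d`.  If `a = 0` or `b = 0` take `c = 0`.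
`ufm_of_FK`: `gcdMonoidOfExistsLCM` gives a `GCDMonoid`, in which irreducible elements are prime
(`GCDMonoid`-instance `DecompositionMonoid`, `Irreducible.prime`), and a Noetherian domain is a `WfDvdMonoid`:
`UniqueFactorizationMonoid` (`ufm_of_decomposition_of_wfDvdMonoid` or `⟨fun => ⟨Irreducible.prime, Prime.irreducible⟩⟩`).
-/

set_option autoImplicit false
set_option linter.unusedVariables false

namespace H42.D2

theorem ufm_principal {S : Type*} [CommRing S] [IsDomain S] (J : Submodule S S)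
    (hJ : Module.Free S J) (b : S) (hb : b ∈ J) (hb0 : b ≠ 0) :
    ∃ s₀ ∈ J, ∀ s ∈ J, ∃ r : S, s = r * s₀ := by
  classical
  let B := Module.Free.chooseBasis S J
  have hsub : ∀ i j : Module.Free.ChooseBasisIndex S J, i = j := by
    intro i j
    by_contra hij
    have h1 : ((B j : J) : S) • B i - ((B i : J) : S) • B j = 0 := by
      apply Subtype.ext
      simp only [Submodule.coe_sub, Submodule.coe_smul, smul_eq_mul, Submodule.coe_zero]
      ring
    have h2 := congrArg (fun v => B.repr v i) h1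
    simp only [map_sub, map_smul, Finsupp.coe_sub, Finsupp.coe_smul, Pi.sub_apply, Pi.smul_apply,
      Module.Basis.repr_self, Finsupp.single_eq_same, map_zero, Finsupp.coe_zero,
      Pi.zero_apply, smul_eq_mul, mul_one] at h2
    rw [Finsupp.single_apply, if_neg (fun h => hij h.symm), mul_zero, sub_zero] at h2
    exact B.ne_zero j (Subtype.ext h2)
  have hne : Nonempty (Module.Free.ChooseBasisIndex S J) := by
    by_contra h
    rw [not_nonempty_iff] at h
    have h1 : (⟨b, hb⟩ : J) = 0 := B.ext_elem (fun i => (h.false i).elim)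
    exact hb0 (congrArg Subtype.val h1)
  obtain ⟨i₀⟩ := hne
  refine ⟨(B i₀ : J), (B i₀).2, fun s hs => ?_⟩
  refine ⟨B.repr ⟨s, hs⟩ i₀, ?_⟩
  have h1 := B.linearCombination_repr ⟨s, hs⟩
  have h2 : B.repr ⟨s, hs⟩ = Finsupp.single i₀ (B.repr ⟨s, hs⟩ i₀) := by
    ext j
    rw [hsub j i₀, Finsupp.single_eq_same]
  rw [h2, Finsupp.linearCombination_single] at h1
  have h3 := congrArg Subtype.val h1
  rw [Submodule.coe_smul, smul_eq_mul] at h3
  exact h3.symm

theorem exists_lcm {S : Type*} [CommRing S] [IsDomain S] [IsNoetherianRing S] (h : FK S)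
    (a b : S) : ∃ c : S, ∀ d : S, a ∣ d ∧ b ∣ d ↔ c ∣ d := by
  by_cases ha : a = 0
  · refine ⟨0, fun d => ?_⟩
    rw [ha]
    constructor
    · exact fun h1 => h1.1
    · intro h1
      rw [zero_dvd_iff] at h1
      rw [h1]
      exact ⟨dvd_refl 0, dvd_zero b⟩
  by_cases hb : b = 0
  · refine ⟨0, fun d => ?_⟩
    rw [hb]
    constructor
    · exact fun h1 => h1.2
    · intro h1
      rw [zero_dvd_iff] at h1
      rw [h1]
      exact ⟨dvd_zero a, dvd_refl 0⟩
  let f : (Fin 2 → S) →ₗ[S] (Fin 1 → S) :=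
    LinearMap.pi (fun _ => a • LinearMap.proj 0 - b • LinearMap.proj 1)
  have hf : ∀ v, v ∈ LinearMap.ker f ↔ a * v 0 = b * v 1 := by
    intro v
    rw [LinearMap.mem_ker]
    constructor
    · intro h1
      have h2 := congrFun h1 0
      have h3 : a * v 0 - b * v 1 = 0 := h2
      exact sub_eq_zero.mp h3
    · intro h1
      funext i
      change a * v 0 - b * v 1 = 0
      exact sub_eq_zero.mpr h1
  let π : LinearMap.ker f →ₗ[S] S := (LinearMap.proj 0).comp (LinearMap.ker f).subtype
  have hπ : ∀ v, π v = (v : Fin 2 → S) 0 := fun v => rfl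
  have hinj : Function.Injective π := by
    rw [injective_iff_map_eq_zero]
    intro v hv
    rw [hπ] at hv
    have h1 := (hf _).mp v.2
    rw [hv, mul_zero] at h1
    have h2 : (v : Fin 2 → S) 1 = 0 := by
      rcases mul_eq_zero.mp h1.symm with h3 | h3
      · exact absurd h3 hb
      · exact h3
    apply Subtype.ext
    funext i
    fin_cases i
    · exact hv
    · exact h2
  have hfree : Module.Free S (LinearMap.range π) := by
    haveI := h 2 1 f
    exact Module.Free.of_equiv (LinearEquiv.ofInjective π hinj)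
  have hbmem : b ∈ LinearMap.range π := by
    refine ⟨⟨![b, a], ?_⟩, rfl⟩
    rw [hf]
    change a * b = b * a
    exact mul_comm a b
  obtain ⟨s₀, hs₀, hgen⟩ := ufm_principal (LinearMap.range π) hfree b hbmem hb
  obtain ⟨v₀, hv₀⟩ := hs₀
  rw [hπ] at hv₀
  have hv₀' := (hf _).mp v₀.2
  rw [hv₀] at hv₀'
  refine ⟨a * s₀, fun d => ?_⟩
  constructor
  · rintro ⟨⟨s, rfl⟩, ⟨t, ht⟩⟩
    have hs : s ∈ LinearMap.range π := by
      refine ⟨⟨![s, t], ?_⟩, rfl⟩
      rw [hf]
      exact ht
    obtain ⟨r, rfl⟩ := hgen s hs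
    exact ⟨r, by ring⟩
  · rintro ⟨r, rfl⟩
    refine ⟨⟨s₀ * r, by ring⟩, ?_⟩
    rw [hv₀']
    exact ⟨(v₀ : Fin 2 → S) 1 * r, by ring⟩

theorem ufm_of_FK {S : Type*} [CommRing S] [IsDomain S] [IsNoetherianRing S] (h : FK S) :
    UniqueFactorizationMonoid S := by
  classical
  letI := gcdMonoidOfExistsLCM (exists_lcm h)
  exact ufm_of_decomposition_of_wfDvdMonoid

end H42.D2
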