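import Mathlib
import Pool.Agent.H42.D2.Pairs
import Pool.Agent.H42.D2.GnPair
import Pool.Agent.H42.D2.UFM
import Pool.Agent.H42.SeqOne

/-!
# A subsequence which is locally constant at all primes (seat helper42, MP_d7d607_ag)
-/

set_option autoImplicit false
set_option linter.unusedSectionVars false

namespace H42.D2

variable {S : Type*} [CommRing S] [IsDomain S] [IsNoetherianRing S] {R : Type*} [Ring R]
  [Algebra S R] [Module.Finite S R] {e : ℕ}

/-- A subsequence in which all members are generically isomorphic. -/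
theorem exists_subseq_gn (ρ : ℕ → (R →ₐ[S] Matrix (Fin e) (Fin e) S)) (hρ : ∀ i, Rig (ρ i)) :
    ∃ φ : ℕ → ℕ, StrictMono φ ∧ ∀ i j, Gn (ρ (φ i)) (ρ (φ j)) := by
  let r : Unit → Setoid ℕ := fun _ =>
    { r := fun i j => Gn (ρ i) (ρ j)
      iseqv :=
        { refl := fun i => Gn.refl _
          symm := fun h => h.symm
          trans := fun h h' => h.trans h' } }
  obtain ⟨φ, hφ, h⟩ := exists_subseq_of_forall_seq r (fun _ f =>
    exists_gn_pair (fun i => ρ (f i)) (fun i => hρ (f i)))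
  exact ⟨φ, hφ, fun i j => h i j ()⟩

/-- Only finitely many primes are bad. -/
theorem exists_finite_bad (h : FK S) (ρ : ℕ → (R →ₐ[S] Matrix (Fin e) (Fin e) S))
    (hρ : ∀ i, Rig (ρ i)) (hgn : ∀ i j, Gn (ρ i) (ρ j)) :
    ∃ T : Finset S, (∀ q ∈ T, Prime q) ∧ ∀ (i : ℕ) (p : S), Prime p →
      (∀ q ∈ T, ¬ Associated q p) → Loc p (ρ 0) (ρ i) := by
  classical
  have : UniqueFactorizationMonoid S := ufm_of_FK h
  choose U hU hU0 using fun i => hgn 0 i
  -- the prime factors of the determinants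
  let fac : ℕ → Finset S := fun i => (UniqueFactorizationMonoid.factors (U i).det).toFinset
  have hfac : ∀ i, ∀ q ∈ fac i, Prime q := by
    intro i q hq
    exact UniqueFactorizationMonoid.prime_of_factor q (Multiset.mem_toFinset.mp hq)
  have hgood : ∀ i (p : S), Prime p → (∀ q ∈ fac i, ¬ Associated q p) → Loc p (ρ 0) (ρ i) := by
    intro i p hp hq
    refine ⟨U i, hU i, fun hdvd => ?_⟩
    obtain ⟨q, hq1, hq2⟩ := UniqueFactorizationMonoid.exists_mem_factors_of_dvd (hU0 i)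
      hp.irreducible hdvd
    exact hq q (Multiset.mem_toFinset.mpr hq1) hq2.symm
  by_contra hcon
  push Not at hcon
  -- a sequence of pairs
  obtain ⟨f, hf1, hf2⟩ := exists_seq_of_forall_finset_exists
    (fun x : ℕ × S => Prime x.2 ∧ ¬ Loc x.2 (ρ 0) (ρ x.1))
    (fun x y : ℕ × S => Loc y.2 (ρ 0) (ρ x.1)) (by
      intro s _
      obtain ⟨i, p, hp, hp1, hp2⟩ := hcon (s.biUnion fun x => fac x.1) (by
        intro q hq
        obtain ⟨x, -, hx⟩ := Finset.mem_biUnion.mp hq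
        exact hfac _ q hx)
      refine ⟨(i, p), ⟨hp, hp2⟩, fun x hx => hgood x.1 p hp (fun q hq => hp1 q ?_)⟩
      exact Finset.mem_biUnion.mpr ⟨x, hx, hq⟩)
  obtain ⟨n, m, hnm, hloc⟩ := exists_loc_pair h (fun n => ρ (f n).1) (fun n => hρ _)
    (fun i j => hgn _ _) (fun n => (f n).2) (fun n => (hf1 n).1)
  exact (hf1 m).2 ((hf2 n m hnm).trans (hf1 m).1 hloc)

/-- A subsequence in which all members are isomorphic at all primes. -/
theorem exists_subseq_loc (h : FK S) (ρ : ℕ → (R →ₐ[S] Matrix (Fin e) (Fin e) S))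
    (hρ : ∀ i, Rig (ρ i)) :
    ∃ φ : ℕ → ℕ, StrictMono φ ∧ (∀ i j, Gn (ρ (φ i)) (ρ (φ j))) ∧
      ∀ i j, ∀ p : S, Prime p → Loc p (ρ (φ i)) (ρ (φ j)) := by
  classical
  obtain ⟨φ, hφ, hgn⟩ := exists_subseq_gn ρ hρ
  obtain ⟨T, hT, hbad⟩ := exists_finite_bad h (fun i => ρ (φ i)) (fun i => hρ _) hgn
  let r : T → Setoid ℕ := fun q =>
    { r := fun i j => Loc q.1 (ρ (φ i)) (ρ (φ j))
      iseqv :=
        { refl := fun i => Loc.refl (hT q.1 q.2) _
          symm := fun h => h.symm (hT q.1 q.2)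
          trans := fun h h' => h.trans (hT q.1 q.2) h' } }
  obtain ⟨ψ, hψ, hr⟩ := exists_subseq_of_forall_seq r (fun q f => by
    obtain ⟨n, m, hnm, hloc⟩ := exists_loc_pair h (fun i => ρ (φ (f i))) (fun i => hρ _)
      (fun i j => hgn _ _) (fun _ => q.1) (fun _ => hT q.1 q.2)
    exact ⟨n, m, hnm, hloc⟩)
  refine ⟨φ ∘ ψ, hφ.comp hψ, fun i j => hgn _ _, fun i j p hp => ?_⟩
  by_cases hp1 : ∃ q ∈ T, Associated q p
  · obtain ⟨q, hq, hqp⟩ := hp1
    exact Loc.of_associated hqp (hr i j ⟨q, hq⟩)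
  · push Not at hp1
    exact ((hbad (ψ i) p hp hp1).symm hp).trans hp (hbad (ψ j) p hp hp1)

end H42.D2
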