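import Mathlib
import Pool.Agent.H42.D2.SplitW
import Pool.Agent.H42.D2.MinorP

/-!
# Job D2-08: a basis of the endomorphisms with a unit minor (helper42, MP_d7d607_ag)

`Hm ρ ρ = ker (d0 ρ ρ)` (`Hm_eq_ker`) is free by `FK.ker_free` and `FK.hom_free`, and finite; `α` a basis indexed by
`Fin a`, `a = finrank (Hm ρ ρ)`.  Projection `π` from `exists_proj`.  If all entries of `∑ c_l α_l` are in `𝔪` then the matrix
is in `𝔪 • ⊤` (`∑_t (entry) • single t`), so `∑ c_l α_l = π (∑ c_l α_l) = ∑_t (entry_t) • π (single t)` with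
`π (single t) ∈ Hm ρ ρ` a combination of the `α_l`; comparing coefficients `c_l ∈ 𝔪`.  Apply `exists_minor_unit` with
`ι = Fin e × Fin e`.
-/

set_option autoImplicit false
set_option linter.unusedVariables false

namespace H42.D2

variable {S : Type*} [CommRing S] [IsDomain S] [IsLocalRing S] [IsNoetherianRing S]
  {R : Type*} [Ring R] [Algebra S R] [Module.Finite S R] {e : ℕ}

theorem exists_basis_end (h : FK S) (ρ : R →ₐ[S] Matrix (Fin e) (Fin e) S) (hρ : Rig ρ) :
    ∃ α : Fin (Module.finrank S (Hm ρ ρ)) → Matrix (Fin e) (Fin e) S,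
      (∀ l, α l ∈ Hm ρ ρ) ∧ (∀ U ∈ Hm ρ ρ, ∃ c : Fin (Module.finrank S (Hm ρ ρ)) → S,
        U = ∑ l, c l • α l) ∧
      ∃ I : Fin (Module.finrank S (Hm ρ ρ)) → Fin e × Fin e,
        IsUnit (Matrix.det (Matrix.of fun l m => α l (I m).1 (I m).2)) := by
  have hT : Module.Free S (R →ₗ[S] Matrix (Fin e) (Fin e) S) := h.hom_free R _
  have hTf : Module.Finite S (R →ₗ[S] Matrix (Fin e) (Fin e) S) := by
    obtain ⟨p, π, hπ⟩ := Module.Finite.exists_fin' S R
    refine Module.Finite.of_injective (LinearMap.lcomp S (Matrix (Fin e) (Fin e) S) π) ?_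
    intro f g hfg
    ext1 r
    obtain ⟨v, rfl⟩ := hπ r
    exact LinearMap.congr_fun hfg v
  have hF : Module.Free S (Hm ρ ρ) := by
    rw [Hm_eq_ker]
    exact h.ker_free _
  have hFf : Module.Finite S (Hm ρ ρ) := inferInstance
  obtain ⟨π, hπ1, hπ2⟩ := exists_proj h ρ hρ
  let b := Module.finBasis S (Hm ρ ρ)
  refine ⟨fun l => (b l : Matrix (Fin e) (Fin e) S), fun l => (b l).2, ?_, ?_⟩
  · intro U hU
    refine ⟨fun l => b.repr ⟨U, hU⟩ l, ?_⟩
    have h1 := congrArg Subtype.val (b.sum_repr ⟨U, hU⟩)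
    rw [AddSubmonoidClass.coe_finsetSum] at h1
    exact h1.symm
  · refine exists_minor_unit (S := S)
      (fun l (ij : Fin e × Fin e) => (b l : Matrix (Fin e) (Fin e) S) ij.1 ij.2) ?_
    intro c hc i
    set U : Matrix (Fin e) (Fin e) S := ∑ l, c l • (b l : Matrix (Fin e) (Fin e) S) with hUdef
    have hU : U ∈ Hm ρ ρ := Submodule.sum_mem _ fun l _ => Submodule.smul_mem _ _ (b l).2
    have hent : ∀ t : Fin e × Fin e, U t.1 t.2 ∈ IsLocalRing.maximalIdeal S := by
      intro t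
      have := hc t
      rw [hUdef, Matrix.sum_apply]
      simpa [Matrix.smul_apply] using this
    have h1 : U = ∑ t : Fin e × Fin e, U t.1 t.2 • Matrix.single t.1 t.2 (1 : S) := by
      conv_lhs => rw [Matrix.matrix_eq_sum_single U]
      rw [Fintype.sum_prod_type]
      refine Finset.sum_congr rfl fun x _ => Finset.sum_congr rfl fun y _ => ?_
      rw [Matrix.smul_single, smul_eq_mul, mul_one]
    have h2 : U = ∑ t : Fin e × Fin e, U t.1 t.2 • π (Matrix.single t.1 t.2 (1 : S)) := by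
      conv_lhs => rw [← hπ2 U hU, h1]
      rw [map_sum]
      refine Finset.sum_congr rfl fun t _ => ?_
      rw [map_smul]
    have h3 : ∑ l, c l • b l = ∑ t : Fin e × Fin e, U t.1 t.2 •
        (⟨π (Matrix.single t.1 t.2 (1 : S)), hπ1 _⟩ : Hm ρ ρ) := by
      apply Subtype.ext
      rw [AddSubmonoidClass.coe_finsetSum, AddSubmonoidClass.coe_finsetSum]
      simp only [SetLike.val_smul]
      rw [← h2]
    have h4 : b.repr (∑ l, c l • b l) i = b.repr (∑ t : Fin e × Fin e, U t.1 t.2 •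
        (⟨π (Matrix.single t.1 t.2 (1 : S)), hπ1 _⟩ : Hm ρ ρ)) i := by rw [h3]
    rw [b.repr_sum_self] at h4
    simp only [map_sum, map_smul, Finsupp.coe_finsetSum, Finsupp.coe_smul, Finset.sum_apply,
      Pi.smul_apply, smul_eq_mul] at h4
    rw [h4]
    exact Ideal.sum_mem _ fun t _ => Ideal.mul_mem_right _ _ (hent t)

end H42.D2
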