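import Mathlib
import Pool.Agent.H42.CoeffField
import Pool.Agent.H42.Fields

/-!
# Job D2-20: coefficient fields of complete local rings (helper42, MP_d7d607_ag)

`R` complete local containing a field.  Then `R` contains a perfect field `K` (the prime field: `ℚ` if all nonzero integers are
invertible, `ZMod p` if `p = 0` in `R`; the residue field has the same characteristic).  `Pool/Agent/H42/ArtSeq.lean` (theorem using
`exists_coeff_field`) shows how to get `PerfectField` and the algebra structure from `HasField`.  The residue field `k` is formally smooth over `K`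
(`formallySmooth_of_perfect`).  Construct compatible `K`-algebra maps `f n : k → R ⧸ 𝔪^(n+1)`, `f 0 = id`
(`R ⧸ 𝔪^1 ≃ k`): `Algebra.FormallySmooth.exists_lift` for the surjection
`R ⧸ 𝔪^(n+2) → R ⧸ 𝔪^(n+1)` with square zero (nilpotent) kernel.  The limit `s : k → R` by completeness:
`IsAdicComplete.liftRingHom` (file `Mathlib/RingTheory/AdicCompletion/RingHom.lean` or similar).
-/

set_option autoImplicit false
set_option linter.unusedVariables false

namespace H42.D2

open IsLocalRing

theorem exists_coeff_field_aux (K A : Type*) [Field K] [PerfectField K] [CommRing A]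
    [IsLocalRing A] [Algebra K A] [IsAdicComplete (maximalIdeal A) A] :
    ∃ s : ResidueField A →+* A, ∀ x, residue A (s x) = x := by
  have := H42.formallySmooth_of_perfect K (ResidueField A)
  obtain ⟨g, hg⟩ := Algebra.FormallySmooth.exists_mkₐ_comp_eq_of_isAdicComplete (R := K)
    (A := ResidueField A) (S := A) (I := maximalIdeal A) (AlgHom.id K (ResidueField A))
  exact ⟨g.toRingHom, fun x => AlgHom.congr_fun hg x⟩

theorem exists_coeff_field_complete (R : Type*) [CommRing R] [IsLocalRing R]
    [IsAdicComplete (maximalIdeal R) R] (h : H42.HasField R) :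
    ∃ s : ResidueField R →+* R, ∀ x, residue R (s x) = x := by
  rcases h.exists_perfect with ⟨⟨hQ⟩⟩ | ⟨p, hp, ⟨hF⟩⟩
  · exact exists_coeff_field_aux ℚ R
  · exact exists_coeff_field_aux (ZMod p) R

end H42.D2
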