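import Mathlib

/-!
# Job D2-14: local tests of divisibility in a factorial domain (helper42, MP_d7d607_ag)

`dvd_of_forall_prime`: `UniqueFactorizationMonoid.exists_reduced_factors'` or a gcd: `x = d x'`, `y = d y'` with `x', y'` relatively prime
(`IsRelPrime`; e.g. use `UniqueFactorizationMonoid.toGCDMonoid` and `exists_dvd_and_dvd...`/`extract_gcd`).  If `x'` is not a unit take a prime
`p ∣ x'`; `x ∣ s * y` gives `x' ∣ s * y'` so `p ∣ s * y'`, `p ∣ y'`: contradiction.
`exists_content`: `c` = gcd of the `w i` (induction on finite sets with `GCDMonoid`, or `Finset.gcd` after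
`UniqueFactorizationMonoid.toGCDMonoid` and `NormalizationMonoid`, or strong induction on the number of prime factors of a nonzero
`w i₀`: if some prime `p` divides all `w i`, divide everything by `p`; `WfDvdMonoid` induction).
-/

set_option autoImplicit false
set_option linter.unusedVariables false

namespace H42.D2

variable {S : Type*} [CommRing S] [IsDomain S] [UniqueFactorizationMonoid S]

theorem dvd_of_forall_prime (x y : S) (hx : x ≠ 0)
    (h : ∀ p : S, Prime p → ∃ s, ¬ p ∣ s ∧ x ∣ s * y) : x ∣ y := by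
  obtain ⟨x', y', d, hrel, hdx, hdy⟩ := UniqueFactorizationMonoid.exists_reduced_factors x hx y
  by_cases hu : IsUnit x'
  · obtain ⟨u, rfl⟩ := hu
    rw [← hdx, ← hdy]
    exact (Units.mul_right_dvd.mpr (dvd_refl d)).trans (dvd_mul_right d y')
  · have hx' : x' ≠ 0 := by
      intro h0
      rw [h0, mul_zero] at hdx
      exact hx hdx.symm
    have hd : d ≠ 0 := by
      intro h0
      rw [h0, zero_mul] at hdx
      exact hx hdx.symm
    obtain ⟨p, hp, hpx⟩ := WfDvdMonoid.exists_irreducible_factor hu hx'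
    have hpp : Prime p := UniqueFactorizationMonoid.irreducible_iff_prime.mp hp
    obtain ⟨s, hs, hxs⟩ := h p hpp
    rw [← hdx, ← hdy] at hxs
    have h1 : d * x' ∣ d * (s * y') := by
      have : s * (d * y') = d * (s * y') := by ring
      rwa [this] at hxs
    have h2 : x' ∣ s * y' := (mul_dvd_mul_iff_left hd).mp h1
    have h3 : p ∣ s * y' := hpx.trans h2
    rcases hpp.dvd_or_dvd h3 with h4 | h4
    · exact absurd h4 hs
    · exact absurd (hrel hpx h4) hpp.not_isUnit

theorem exists_content {ι : Type*} [Finite ι] (w : ι → S) (hw : ∃ i, w i ≠ 0) :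
    ∃ c : S, c ≠ 0 ∧ (∀ i, c ∣ w i) ∧ ∀ p : S, Prime p → ∃ i x, w i = c * x ∧ ¬ p ∣ x := by
  classical
  cases nonempty_fintype ι
  letI := UniqueFactorizationMonoid.strongNormalizationMonoid (α := S)
  letI := UniqueFactorizationMonoid.toNormalizedGCDMonoid S
  have hc0 : Finset.univ.gcd w ≠ 0 := by
    intro h0
    rw [Finset.gcd_eq_zero_iff] at h0
    obtain ⟨i, hi⟩ := hw
    exact hi (h0 i (Finset.mem_univ i))
  refine ⟨Finset.univ.gcd w, hc0, fun i => Finset.gcd_dvd (Finset.mem_univ i), fun p hp => ?_⟩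
  by_contra hcon
  push Not at hcon
  have h1 : Finset.univ.gcd w * p ∣ Finset.univ.gcd w := by
    apply Finset.dvd_gcd
    intro i _
    obtain ⟨x, hx⟩ := Finset.gcd_dvd (f := w) (Finset.mem_univ i)
    rw [hx]
    exact mul_dvd_mul_left _ (hcon i x hx)
  have h2 : Finset.univ.gcd w * p ∣ Finset.univ.gcd w * 1 := by
    rwa [mul_one]
  exact hp.not_dvd_one ((mul_dvd_mul_iff_left hc0).mp h2)

end H42.D2
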