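import Mathlib

/-!
# Job D2-21: evaluation of power series in complete rings (helper42, MP_d7d607_ag)

With topologies (`J`-adic topology on `R`, `WithIdeal`, `IsAdic`, complete, linear topology;
`MvPowerSeries.eval₂Hom` with `MvPowerSeries.HasEval`), `k` discrete.
-/

set_option autoImplicit false
set_option linter.unusedVariables false

namespace H42.D2

theorem exists_eval {k : Type*} [Field k] {R : Type*} [CommRing R] (J : Ideal R)
    [IsAdicComplete J R] (s : k →+* R) {d : ℕ} (y : Fin d → R) (hy : ∀ i, y i ∈ J) :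
    ∃ φ : MvPowerSeries (Fin d) k →+* R,
      (∀ c : k, φ (MvPowerSeries.C c) = s c) ∧ ∀ i, φ (MvPowerSeries.X i) = y i := by
  let : WithIdeal R := ⟨J⟩
  have hadic : IsAdic J := rfl
  obtain ⟨hc, ht⟩ := (IsAdic.isAdicComplete_iff hadic).1 inferInstance
  let : UniformSpace k := ⊥
  have : DiscreteTopology k := ⟨rfl⟩
  have : IsUniformAddGroup k := inferInstance
  have hφ : Continuous s := continuous_of_discreteTopology
  have ha : MvPowerSeries.HasEval y := by
    refine ⟨fun i => ?_, ?_⟩
    · unfold IsTopologicallyNilpotent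
      rw [hadic.hasBasis_nhds_zero.tendsto_right_iff]
      intro n _
      filter_upwards [Filter.eventually_ge_atTop n] with m hm
      exact Ideal.pow_le_pow_right hm (Ideal.pow_mem_pow (hy i) m)
    · rw [Filter.cofinite_eq_bot]
      exact Filter.tendsto_bot
  refine ⟨MvPowerSeries.eval₂Hom hφ ha, fun c => ?_, fun i => ?_⟩
  · rw [MvPowerSeries.coe_eval₂Hom, MvPowerSeries.eval₂_C]
  · rw [MvPowerSeries.coe_eval₂Hom, MvPowerSeries.eval₂_X]

end H42.D2
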