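import Mathlib

/-!
# Job D2-15: modules of integral functions in a finite-dimensional space (helper42, MP_d7d607_ag)

`V ⊆ (ℕ → K)` finite-dimensional.  `V_n = {f ∈ V | f j = 0 for j < n}` is an antitone sequence of subspaces of `V`, so it
stabilizes (`V` is Artinian: `IsArtinian.monotone_stabilizes`), and the stable value is `⊥`; so for some `n` the map `V → K^n`,
`f ↦ (f j)_{j < n}` is injective.  Hence `W → S^n` is injective (`algebraMap S K` is injective), `S^n` is a Noetherian module,
`W` is Noetherian (`isNoetherian_of_injective`), so `W.FG` (`isNoetherian_submodule`, `Module.Finite.iff_fg`).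
-/

set_option autoImplicit false
set_option linter.unusedVariables false

namespace H42.D2

theorem fg_of_finite {S : Type*} [CommRing S] [IsDomain S] [IsNoetherianRing S] (K : Type*)
    [Field K] [Algebra S K] [IsFractionRing S K] (V : Submodule K (ℕ → K)) [Module.Finite K V]
    (W : Submodule S (ℕ → S)) (h : ∀ f ∈ W, (fun j => algebraMap S K (f j)) ∈ V) : W.FG := by
  let F : ℕ → Submodule K V := fun n =>
    { carrier := {f | ∀ j, j < n → (f : ℕ → K) j = 0}
      add_mem' := by
        intro f g hf hg j hj
        simp [hf j hj, hg j hj]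
      zero_mem' := by
        intro j _
        rfl
      smul_mem' := by
        intro c f hf j hj
        simp [hf j hj] }
  have hmono : Antitone F := by
    intro m n hmn f hf j hj
    exact hf j (lt_of_lt_of_le hj hmn)
  obtain ⟨n, hn⟩ := IsArtinian.monotone_stabilizes
    (⟨fun n => OrderDual.toDual (F n), fun a b hab => hmono hab⟩ : ℕ →o (Submodule K V)ᵒᵈ)
  let φ : W →ₗ[S] (Fin n → S) :=
    { toFun := fun f i => (f : ℕ → S) i
      map_add' := by intro f g; rfl
      map_smul' := by intro c f; rfl }
  have hinj : Function.Injective φ := by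
    rw [← LinearMap.ker_eq_bot, LinearMap.ker_eq_bot']
    rintro ⟨f, hf⟩ hφ
    have h1 : ∀ j, j < n → f j = 0 := fun j hj => congrFun hφ ⟨j, hj⟩
    have h2 : (⟨fun j => algebraMap S K (f j), h f hf⟩ : V) ∈ F n := by
      intro j hj
      change algebraMap S K (f j) = 0
      rw [h1 j hj, map_zero]
    have h3 : ∀ j, f j = 0 := by
      intro j
      have h4 : F n = F (max n (j + 1)) := hn (max n (j + 1)) (le_max_left _ _)
      rw [h4] at h2
      have h5 : algebraMap S K (f j) = 0 := h2 j (lt_of_lt_of_le (Nat.lt_succ_self j) (le_max_right _ _))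
      exact (map_eq_zero_iff _ (IsFractionRing.injective S K)).1 h5
    exact Subtype.ext (funext h3)
  have hN : IsNoetherian S W := isNoetherian_of_injective φ hinj
  exact (Module.Finite.iff_fg).1 (inferInstance : Module.Finite S W)

end H42.D2
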