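import Mathlib
import Pool.Agent.H42.D2.Base
import Pool.Agent.H96.RM.FreeReg

/-!
# Job D2-01: kernels over a two-dimensional regular local ring are free (helper42, MP_d7d607_ag)

`FK_of_regular`: `f : S^p → S^q`, `K = ker f`.  Apply `H96.RM.free_of_regular [x, y]` (`Ideal.ofList [x, y] =
Ideal.span {x, y} = 𝔪`) to `K` (finite as `S` is Noetherian).  `IsWeaklyRegular K [x, y]`
(`RingTheory.Sequence.isWeaklyRegular_cons_iff`, `IsSMulRegular`): `x` is regular on `K ⊆ S^p` as `S` is a domain; `y` is
regular on `K / x K`: if `y k = x k'` with `k, k' ∈ K` then coordinatewise `x ∣ y * k_i`, so `k_i = x z_i` (`hy`), and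
`x f(z) = f(k) = 0` gives `f z = 0`, so `k = x z ∈ x K`.

Status: complete (helper26).
-/

set_option autoImplicit false
set_option linter.unusedVariables false

namespace H42.D2

open IsLocalRing

open scoped Pointwise in
theorem FK_of_regular {S : Type*} [CommRing S] [IsDomain S] [IsLocalRing S] [IsNoetherianRing S]
    (x y : S) (hm : maximalIdeal S = Ideal.span {x, y}) (hx : x ≠ 0)
    (hy : ∀ s : S, x ∣ y * s → x ∣ s) : FK S := by
  intro p q f
  have h1 : Ideal.ofList [x, y] = maximalIdeal S := by
    rw [hm]
    simp only [Ideal.ofList_cons, Ideal.ofList_nil, sup_bot_eq]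
    rw [← Ideal.span_insert]
  refine H96.RM.free_of_regular [x, y] h1 (LinearMap.ker f) ?_
  rw [RingTheory.Sequence.isWeaklyRegular_cons_iff]
  refine ⟨?_, ?_⟩
  · intro a b hab
    apply Subtype.ext
    funext i
    have h2 : x * (a : Fin p → S) i = x * (b : Fin p → S) i :=
      congrFun (congrArg Subtype.val hab) i
    exact mul_left_cancel₀ hx h2
  · rw [RingTheory.Sequence.isWeaklyRegular_cons_iff]
    refine ⟨?_, RingTheory.Sequence.IsWeaklyRegular.nil _ _⟩
    refine (isSMulRegular_quotient_iff_mem_of_smul_mem (x • (⊤ : Submodule S (LinearMap.ker f)))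
      y).2 ?_
    intro k hk
    obtain ⟨k', _, hk'⟩ := (Submodule.mem_smul_pointwise_iff_exists _ _ _).1 hk
    have h3 : ∀ i, x ∣ (k : Fin p → S) i := by
      intro i
      apply hy
      refine ⟨(k' : Fin p → S) i, ?_⟩
      exact (congrFun (congrArg Subtype.val hk') i).symm
    choose z hz using h3
    have h4 : (k : Fin p → S) = x • z := by
      funext i
      exact hz i
    have h5 : f z = 0 := by
      have h6 : f (k : Fin p → S) = 0 := k.2
      rw [h4, map_smul] at h6
      funext j
      have h7 : x * f z j = x * 0 := by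
        rw [mul_zero]
        exact congrFun h6 j
      exact mul_left_cancel₀ hx h7
    rw [Submodule.mem_smul_pointwise_iff_exists]
    refine ⟨⟨z, h5⟩, Submodule.mem_top, ?_⟩
    apply Subtype.ext
    exact h4.symm

end H42.D2
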