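import Mathlib

/-!
# Plücker coordinates of families of matrices: definition (helper42, MP_d7d607_ag)
-/

set_option autoImplicit false
set_option linter.unusedVariables false

namespace H42.D2

/-- The maximal minor of a family of `a` matrices at `a` positions. -/
def plu {S : Type*} [CommRing S] {e a : ℕ} (h : Fin a → Matrix (Fin e) (Fin e) S)
    (I : Fin a → Fin e × Fin e) : S :=
  Matrix.det (Matrix.of fun l m => h l (I m).1 (I m).2)

end H42.D2
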