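import Mathlib
import Pool.Agent.H42.D2.Plu

/-!
# Job D2-12: Plücker coordinates, combinations and Cramer (helper42, MP_d7d607_ag)

`B l m = h l (I m)`.
`plu_comb`: `det (N * B)`.  `plu_smul`: `det (c • B)`.
`plu_span`: `plu h (update I m t)` is the determinant of `B` with column `m` replaced by `(h l t)_l`, i.e. `Matrix.cramer B (h · t) m`
(`Matrix.cramer_apply`, `updateCol`) `= (adjugate B *ᵥ (h · t)) m`; so `∑ m, y m * ... = ∑ l, (∑ m, y m * adj B m l) * h l t`.
`plu_cramer`: `x = ∑ c_l h_l`: `x (I m) = ∑_l c_l B l m = (c ᵥ* B) m`, so the sum is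
`(c ᵥ* B) ⬝ᵥ (adj B *ᵥ v) = c ⬝ᵥ (B * adj B) *ᵥ v = det B * (c ⬝ᵥ v)`, `v l = h l t`.
-/

set_option autoImplicit false
set_option linter.unusedVariables false

namespace H42.D2

variable {S : Type*} [CommRing S] {e a : ℕ}

/-- The matrix of the coordinates at the positions `I`. -/
def pluA_mat (h : Fin a → Matrix (Fin e) (Fin e) S) (I : Fin a → Fin e × Fin e) :
    Matrix (Fin a) (Fin a) S := Matrix.of fun l m => h l (I m).1 (I m).2

theorem pluA_det (h : Fin a → Matrix (Fin e) (Fin e) S) (I : Fin a → Fin e × Fin e) :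
    plu h I = (pluA_mat h I).det := rfl

theorem plu_comb (N : Matrix (Fin a) (Fin a) S) (h : Fin a → Matrix (Fin e) (Fin e) S)
    (I : Fin a → Fin e × Fin e) : plu (fun l => ∑ k, N l k • h k) I = N.det * plu h I := by
  rw [pluA_det, pluA_det, ← Matrix.det_mul]
  congr 1
  ext l m
  simp only [pluA_mat, Matrix.of_apply, Matrix.mul_apply, Matrix.sum_apply, Matrix.smul_apply,
    smul_eq_mul]

theorem plu_smul (c : S) (h : Fin a → Matrix (Fin e) (Fin e) S) (I : Fin a → Fin e × Fin e) :
    plu (fun l => c • h l) I = c ^ a * plu h I := by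
  have h1 : pluA_mat (fun l => c • h l) I = c • pluA_mat h I := by
    ext l m
    simp only [pluA_mat, Matrix.of_apply, Matrix.smul_apply]
  rw [pluA_det, pluA_det, h1, Matrix.det_smul, Fintype.card_fin]

theorem pluA_update (h : Fin a → Matrix (Fin e) (Fin e) S) (I : Fin a → Fin e × Fin e)
    (m : Fin a) (t : Fin e × Fin e) : plu h (Function.update I m t) =
      ∑ l, (pluA_mat h I).adjugate m l * h l t.1 t.2 := by
  have h1 : pluA_mat h (Function.update I m t) =
      (pluA_mat h I).updateCol m (fun l => h l t.1 t.2) := by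
    ext l k
    rw [Matrix.updateCol_apply]
    simp only [pluA_mat, Matrix.of_apply]
    split_ifs with hk
    · rw [hk, Function.update_self]
    · rw [Function.update_of_ne hk]
  rw [pluA_det, h1, ← Matrix.cramer_apply, Matrix.cramer_eq_adjugate_mulVec]
  rfl

theorem plu_span (h : Fin a → Matrix (Fin e) (Fin e) S) (I : Fin a → Fin e × Fin e)
    (y : Fin a → S) : ∃ c : Fin a → S, ∀ t : Fin e × Fin e,
      ∑ m, y m * plu h (Function.update I m t) = ∑ l, c l * h l t.1 t.2 := by
  refine ⟨fun l => ∑ m, y m * (pluA_mat h I).adjugate m l, fun t => ?_⟩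
  simp only [pluA_update, Finset.mul_sum, Finset.sum_mul]
  rw [Finset.sum_comm]
  refine Finset.sum_congr rfl (fun l _ => Finset.sum_congr rfl (fun m _ => ?_))
  ring

theorem plu_cramer (h : Fin a → Matrix (Fin e) (Fin e) S) (I : Fin a → Fin e × Fin e)
    (c : Fin a → S) (x : Matrix (Fin e) (Fin e) S) (hx : x = ∑ l, c l • h l)
    (t : Fin e × Fin e) :
    ∑ m, x (I m).1 (I m).2 * plu h (Function.update I m t) = plu h I * x t.1 t.2 := by
  have hxp : ∀ p q, x p q = ∑ k, c k * h k p q := by
    intro p q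
    rw [hx]
    simp only [Matrix.sum_apply, Matrix.smul_apply, smul_eq_mul]
  have hadj : ∀ k l, ∑ m, pluA_mat h I k m * (pluA_mat h I).adjugate m l =
      if k = l then plu h I else 0 := by
    intro k l
    have h1 := congrFun (congrFun (Matrix.mul_adjugate (pluA_mat h I)) k) l
    rw [Matrix.mul_apply, Matrix.smul_apply, Matrix.one_apply, ← pluA_det] at h1
    rw [h1]
    split_ifs <;> simp
  simp only [pluA_update, hxp]
  have e1 : ∀ m, (∑ k, c k * h k (I m).1 (I m).2) *
        ∑ l, (pluA_mat h I).adjugate m l * h l t.1 t.2 =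
      ∑ k, ∑ l, (c k * h l t.1 t.2) * (pluA_mat h I k m * (pluA_mat h I).adjugate m l) := by
    intro m
    rw [Finset.sum_mul_sum]
    refine Finset.sum_congr rfl (fun k _ => Finset.sum_congr rfl (fun l _ => ?_))
    have e2 : pluA_mat h I k m = h k (I m).1 (I m).2 := rfl
    rw [e2]
    ring
  rw [Finset.sum_congr rfl (fun m _ => e1 m), Finset.sum_comm, Finset.mul_sum]
  refine Finset.sum_congr rfl (fun k _ => ?_)
  rw [Finset.sum_comm]
  simp only [← Finset.mul_sum, hadj, mul_ite, mul_zero, Finset.sum_ite_eq, Finset.mem_univ,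
    if_true]
  ring

end H42.D2
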