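import Mathlib
import Pool.Agent.H42.D2.Plu

/-!
# Job D2-13: Plücker coordinates, expansions (helper42, MP_d7d607_ag)

`plu_mul_left`: `Matrix.det_apply` (or `det_apply'`): `det = ∑ σ, sign σ • ∏ m, (V * h (σ m)) (I m).1 (I m).2`,
`(V * h) p q = ∑ k, V p k * h k q`, expand the product of sums by `Finset.prod_univ_sum` (or `Fintype.piFinset`,
`Finset.prod_sum`; `∏ m, ∑ k, f m k = ∑ q : Fin a → Fin e, ∏ m, f m (q m)` is `Finset.prod_univ_sum` with
`Fintype.piFinset_univ`), split the product (`Finset.prod_mul_distrib`) and exchange the sums.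
`plu_mul_right`: the same.
-/

set_option autoImplicit false
set_option linter.unusedVariables false

namespace H42.D2

variable {S : Type*} [CommRing S] {e a : ℕ}

theorem plu_mul_left (V : Matrix (Fin e) (Fin e) S) (h : Fin a → Matrix (Fin e) (Fin e) S)
    (I : Fin a → Fin e × Fin e) :
    plu (fun l => V * h l) I =
      ∑ q : Fin a → Fin e, (∏ m, V (I m).1 (q m)) * plu h (fun m => (q m, (I m).2)) := by
  unfold plu
  simp only [Matrix.det_apply, Matrix.of_apply, Matrix.mul_apply, Finset.mul_sum]
  rw [Finset.sum_comm]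
  refine Finset.sum_congr rfl (fun σ _ => ?_)
  rw [Finset.prod_univ_sum, Fintype.piFinset_univ, Finset.smul_sum]
  refine Finset.sum_congr rfl (fun q _ => ?_)
  rw [Finset.prod_mul_distrib, mul_smul_comm]

theorem plu_mul_right (V : Matrix (Fin e) (Fin e) S) (h : Fin a → Matrix (Fin e) (Fin e) S)
    (I : Fin a → Fin e × Fin e) :
    plu (fun l => h l * V) I =
      ∑ q : Fin a → Fin e, (∏ m, V (q m) (I m).2) * plu h (fun m => ((I m).1, q m)) := by
  unfold plu
  simp only [Matrix.det_apply, Matrix.of_apply, Matrix.mul_apply, Finset.mul_sum]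
  rw [Finset.sum_comm]
  refine Finset.sum_congr rfl (fun σ _ => ?_)
  rw [Finset.prod_univ_sum, Fintype.piFinset_univ, Finset.smul_sum]
  refine Finset.sum_congr rfl (fun q _ => ?_)
  rw [Finset.prod_mul_distrib, mul_smul_comm, mul_comm]

end H42.D2
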