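import Mathlib
import Pool.Agent.H42.D2.Base
import Pool.Agent.H42.D2.PluA
import Pool.Agent.H42.D2.PluB
import Pool.Agent.H42.D2.DivLoc

/-!
# Job D2-16: integrality of the rescaled Plücker coordinates (helper42, MP_d7d607_ag)

Use `dvd_of_forall_prime`.  Fix a prime `p`, `U ∈ Hm ρ0 ρi` with `p ∤ det U`.  For each `l`:
`Gi.adjugate * αi l * U ∈ Hm ρ0 ρ0` (`mul_mem_Hm`, `adjugate_mem_Hm`), so it is `∑ k, Y l k • α0 k`.
(a) `Gj * adj Gi * αi l * U = ∑ k, Y l k • (Gj * α0 k)`, so by `plu_comb`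
`plu (l ↦ Gj * adj Gi * αi l * U) I = det Y * plu (Gj * α0) I` is divisible by `det Y * cj` for every `I`.
(b) `Gi * adj Gi * αi l * U = det Gi • (αi l * U) = ∑ k, Y l k • (Gi * α0 k)`: so (`plu_smul`, `plu_comb`)
`(det Gi)^a * plu (αi * U) I' = det Y * plu (Gi * α0) I' = det Y * ci * x` with `I', x` from `hci p`: `(det Gi)^a ∣ det Y * ci * x`.
(c) `(det U)^a * plu (Gj * adj Gi * αi) I = plu ((Gj * adj Gi * αi * U) * adj U) I` (`plu_smul`) is by `plu_mul_right` a combination of the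
values in (a), so it is divisible by `det Y * cj`.
Hence `cj * (det Gi)^a ∣ cj * det Y * ci * x ∣ (x * (det U)^a) * (ci * plu (Gj * adj Gi * αi) I)` and `p ∤ x * (det U)^a`.
-/

set_option autoImplicit false
set_option linter.unusedVariables false

namespace H42.D2

theorem integrality {S : Type*} [CommRing S] [IsDomain S] [UniqueFactorizationMonoid S]
    {R : Type*} [Ring R] [Algebra S R] {e a : ℕ}
    {ρ0 ρi : R →ₐ[S] Matrix (Fin e) (Fin e) S} (hloc : ∀ p : S, Prime p → Loc p ρ0 ρi)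
    (α0 : Fin a → Matrix (Fin e) (Fin e) S)
    (hgen : ∀ U ∈ Hm ρ0 ρ0, ∃ c : Fin a → S, U = ∑ l, c l • α0 l)
    (αi : Fin a → Matrix (Fin e) (Fin e) S) (hαi : ∀ l, αi l ∈ Hm ρi ρi)
    {Gi : Matrix (Fin e) (Fin e) S} (hGi : Gi ∈ Hm ρ0 ρi) (hGi0 : Gi.det ≠ 0)
    (Gj : Matrix (Fin e) (Fin e) S) (ci cj : S) (hcj0 : cj ≠ 0)
    (hci : ∀ p : S, Prime p → ∃ I x, plu (fun l => Gi * α0 l) I = ci * x ∧ ¬ p ∣ x)
    (hcj : ∀ I, cj ∣ plu (fun l => Gj * α0 l) I) (I : Fin a → Fin e × Fin e) :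
    cj * Gi.det ^ a ∣ ci * plu (fun l => Gj * Gi.adjugate * αi l) I := by
  apply dvd_of_forall_prime _ _ (mul_ne_zero hcj0 (pow_ne_zero a hGi0))
  intro p hp
  obtain ⟨U, hU, hUp⟩ := hloc p hp
  have hmem : ∀ l, Gi.adjugate * (αi l * U) ∈ Hm ρ0 ρ0 := fun l =>
    mul_mem_Hm (mul_mem_Hm hU (hαi l)) (adjugate_mem_Hm hGi hGi0)
  choose Y hY using fun l => hgen _ (hmem l)
  let N : Matrix (Fin a) (Fin a) S := Matrix.of Y
  -- (a)
  have ha : ∀ I', plu (fun l => Gj * Gi.adjugate * αi l * U) I' =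
      N.det * plu (fun k => Gj * α0 k) I' := by
    intro I'
    rw [← plu_comb]
    congr 1
    funext l
    have h1 : Gj * Gi.adjugate * αi l * U = Gj * (Gi.adjugate * (αi l * U)) := by
      simp only [mul_assoc]
    rw [h1, hY l, Finset.mul_sum]
    refine Finset.sum_congr rfl (fun k _ => ?_)
    rw [mul_smul_comm]
    rfl
  -- (b)
  obtain ⟨I', x, hx, hpx⟩ := hci p hp
  have hb : Gi.det ^ a ∣ N.det * (ci * x) := by
    refine ⟨plu (fun l => αi l * U) I', ?_⟩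
    rw [← plu_smul, ← hx, ← plu_comb]
    congr 1
    funext l
    have h1 : Gi.det • (αi l * U) = Gi * (Gi.adjugate * (αi l * U)) := by
      rw [← mul_assoc, Matrix.mul_adjugate, Matrix.smul_mul, Matrix.one_mul]
    rw [h1, hY l, Finset.mul_sum]
    refine Finset.sum_congr rfl (fun k _ => ?_)
    rw [mul_smul_comm]
    rfl
  -- (c)
  have hc : cj * N.det ∣ U.det ^ a * plu (fun l => Gj * Gi.adjugate * αi l) I := by
    rw [← plu_smul]
    have h1 : (fun l => U.det • (Gj * Gi.adjugate * αi l)) =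
        fun l => (Gj * Gi.adjugate * αi l * U) * U.adjugate := by
      funext l
      rw [mul_assoc (Gj * Gi.adjugate * αi l) U, Matrix.mul_adjugate, Matrix.mul_smul,
        Matrix.mul_one]
    rw [h1, plu_mul_right]
    apply Finset.dvd_sum
    intro q _
    rw [ha]
    apply Dvd.dvd.mul_left
    rw [mul_comm cj]
    exact mul_dvd_mul_left _ (hcj _)
  refine ⟨x * U.det ^ a, ?_, ?_⟩
  · intro hdvd
    rcases hp.dvd_or_dvd hdvd with h1 | h1
    · exact hpx h1
    · exact hUp (hp.dvd_of_dvd_pow h1)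
  · obtain ⟨z, hz⟩ := hc
    obtain ⟨w, hw⟩ := hb
    refine ⟨w * z, ?_⟩
    calc x * U.det ^ a * (ci * plu (fun l => Gj * Gi.adjugate * αi l) I)
        = x * ci * (U.det ^ a * plu (fun l => Gj * Gi.adjugate * αi l) I) := by ring
      _ = cj * (N.det * (ci * x)) * z := by rw [hz]; ring
      _ = cj * Gi.det ^ a * (w * z) := by rw [hw]; ring

end H42.D2
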