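import Mathlib
import Pool.Agent.H42.Select
import Pool.Agent.H42.D2.Integ
import Pool.Agent.H42.D2.FGFun

/-!
# The final step: selection in the special fibre (seat helper42, MP_d7d607_ag)
-/

set_option autoImplicit false
set_option linter.unusedSectionVars false

namespace H42.D2

open IsLocalRing

section

variable {S : Type*} [CommRing S] [IsDomain S] {R : Type*} [Ring R] [Algebra S R] {e : ℕ}

lemma aux_cancel {K : Type*} [Field K] {x z y : K} (hx : x ≠ 0) (hz : z ≠ 0) :
    y = x⁻¹ * z⁻¹ * (x * z * y) := by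
  field_simp

lemma aux_comm {K : Type*} [Field K] (x z A B C : K) :
    x⁻¹ * z⁻¹ * (A * (B * C)) = (A * C / z) * (x⁻¹ * B) := by
  rw [div_eq_mul_inv]
  ring

/-- `Hm` is saturated. -/
lemma mem_Hm_of_smul {ρ σ : R →ₐ[S] Matrix (Fin e) (Fin e) S} {c : S} (hc : c ≠ 0)
    {U : Matrix (Fin e) (Fin e) S} (h : c • U ∈ Hm ρ σ) : U ∈ Hm ρ σ := by
  intro a
  have h1 := h a
  rw [Matrix.mul_smul, Matrix.smul_mul] at h1
  exact smul_right_injective _ hc h1

end

variable {S : Type*} [CommRing S] [IsDomain S] [IsLocalRing S] [IsNoetherianRing S]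
  [UniqueFactorizationMonoid S] {R : Type*} [Ring R] [Algebra S R] {e a : ℕ}

theorem final_step (ρ : ℕ → (R →ₐ[S] Matrix (Fin e) (Fin e) S))
    (hgn : ∀ j, Gn (ρ 0) (ρ j)) (hloc : ∀ j, ∀ p : S, Prime p → Loc p (ρ 0) (ρ j))
    (α : ℕ → Fin a → Matrix (Fin e) (Fin e) S) (hα : ∀ i l, α i l ∈ Hm (ρ i) (ρ i))
    (hgen : ∀ i, ∀ U ∈ Hm (ρ i) (ρ i), ∃ c : Fin a → S, U = ∑ l, c l • α i l)
    (hunit : ∀ i, ∃ I, IsUnit (plu (α i) I)) :
    ∃ i j, i < j ∧ ∃ U ∈ Hm (ρ i) (ρ j), IsUnit U.det := by
  classical
  choose G hG hG0 using hgn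
  choose I0 hI0 using hunit
  have hadj : ∀ j (X : Matrix (Fin e) (Fin e) S),
      (G j).adjugate * (G j * X) = (G j).det • X := by
    intro j X
    rw [← mul_assoc, Matrix.adjugate_mul, Matrix.smul_mul, Matrix.one_mul]
  have hadj' : ∀ j (X : Matrix (Fin e) (Fin e) S),
      G j * (G j).adjugate * X = (G j).det • X := by
    intro j X
    rw [Matrix.mul_adjugate, Matrix.smul_mul, Matrix.one_mul]
  -- contents
  have hne : ∀ j, ∃ I, plu (fun l => G j * α 0 l) I ≠ 0 := by
    intro j
    by_contra hcon
    push Not at hcon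
    have h1 : plu (fun l => (G j).adjugate * (G j * α 0 l)) (I0 0) = 0 := by
      rw [plu_mul_left]
      exact Finset.sum_eq_zero (fun q _ => by rw [hcon, mul_zero])
    simp only [hadj] at h1
    rw [plu_smul] at h1
    exact mul_ne_zero (pow_ne_zero _ (hG0 j)) (hI0 0).ne_zero h1
  choose c hc0 hcdvd hcprim using fun j =>
    exists_content (fun I => plu (fun l => G j * α 0 l) I) (hne j)
  have hint := fun i j I => integrality (hloc i) (α 0) (hgen 0) (α i) (hα i) (hG i) (hG0 i)
    (G j) (c i) (c j) (hc0 j) (hcprim i) (hcdvd j) I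
  choose v hv using hint
  have hvii : ∀ i I, v i i I = plu (α i) I := by
    intro i I
    have h1 := hv i i I
    simp only [hadj'] at h1
    rw [plu_smul, mul_assoc] at h1
    exact (mul_left_cancel₀ (pow_ne_zero a (hG0 i)) (mul_left_cancel₀ (hc0 i) h1)).symm
  -- the function space
  let K := FractionRing S
  let ψ : S →+* K := algebraMap S K
  have hψ : Function.Injective ψ := IsFractionRing.injective S K
  have hψ0 : ∀ x : S, x ≠ 0 → ψ x ≠ 0 := fun x hx h => hx (hψ (by rw [h, map_zero]))
  let mono : (Fin a → Fin e × Fin e) → (ℕ → K) := fun t j =>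
    (ψ (c j))⁻¹ * ∏ m, ψ (G j (t m).1 (t m).2)
  let V : Submodule K (ℕ → K) := Submodule.span K (Set.range mono)
  have hVfin : Module.Finite K V := Module.Finite.span_of_finite K (Set.finite_range mono)
  have hvV : ∀ i I, (fun j => ψ (v i j I)) ∈ V := by
    intro i I
    have h1 : (fun j => ψ (v i j I)) = ∑ q : Fin a → Fin e,
        ((ψ (c i) * ψ (plu (fun l => (G i).adjugate * α i l) (fun m => (q m, (I m).2)))) /
          ψ ((G i).det ^ a)) • mono (fun m => ((I m).1, q m)) := by
      ext j
      have h2 := congrArg ψ (hv i j I)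
      have h3 : plu (fun l => G j * (G i).adjugate * α i l) I =
          ∑ q : Fin a → Fin e, (∏ m, G j (I m).1 (q m)) *
            plu (fun l => (G i).adjugate * α i l) (fun m => (q m, (I m).2)) := by
        rw [← plu_mul_left]
        congr 1
        funext l
        rw [mul_assoc]
      rw [h3] at h2
      simp only [map_mul, map_sum, map_prod, map_pow] at h2
      simp only [Finset.sum_apply, Pi.smul_apply, smul_eq_mul, mono, map_pow]
      have hc := hψ0 _ (hc0 j)
      have hd := pow_ne_zero a (hψ0 _ (hG0 i))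
      have h4 : ψ (v i j I) = (ψ (c j))⁻¹ * (ψ (G i).det ^ a)⁻¹ *
          (ψ (c j) * ψ (G i).det ^ a * ψ (v i j I)) := aux_cancel hc hd
      rw [h4, ← h2, Finset.mul_sum, Finset.mul_sum]
      refine Finset.sum_congr rfl (fun q _ => ?_)
      exact aux_comm _ _ _ _ _
    rw [h1]
    exact Submodule.sum_mem _ (fun q _ => Submodule.smul_mem _ _
      (Submodule.subset_span ⟨_, rfl⟩))
  let W : Submodule S (ℕ → S) :=
    Submodule.span S (Set.range fun x : ℕ × (Fin a → Fin e × Fin e) => fun j => v x.1 j x.2)
  have hW : W.FG := by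
    refine fg_of_finite K V W (fun f hf => ?_)
    induction hf using Submodule.span_induction with
    | mem f hf =>
      obtain ⟨x, rfl⟩ := hf
      exact hvV x.1 x.2
    | zero =>
      have : (fun j : ℕ => algebraMap S K ((0 : ℕ → S) j)) = 0 := by ext j; simp
      rw [this]
      exact V.zero_mem
    | add f g _ _ hf hg =>
      have : (fun j : ℕ => algebraMap S K ((f + g) j)) =
          (fun j => algebraMap S K (f j)) + fun j => algebraMap S K (g j) := by ext j; simp
      rw [this]
      exact V.add_mem hf hg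
    | smul b f _ hf =>
      have : (fun j : ℕ => algebraMap S K ((b • f) j)) =
          (algebraMap S K b) • fun j => algebraMap S K (f j) := by ext j; simp
      rw [this]
      exact V.smul_mem _ hf
  obtain ⟨s, hs⟩ := hW
  -- reduction modulo the maximal ideal
  let red : (ℕ → S) → (ℕ → ResidueField S) := fun f j => residue S (f j)
  let P : Subalgebra (ResidueField S) (ℕ → ResidueField S) :=
    Algebra.adjoin (ResidueField S) (red '' (s : Set (ℕ → S)))
  have hPfg : P.FG := by
    refine ⟨((s.finite_toSet).image red).toFinset, ?_⟩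
    rw [Set.Finite.coe_toFinset]
  have hPW : ∀ f ∈ W, red f ∈ P := by
    intro f hf
    rw [← hs] at hf
    induction hf using Submodule.span_induction with
    | mem f hf => exact Algebra.subset_adjoin ⟨f, hf, rfl⟩
    | zero =>
      have : red 0 = 0 := by ext j; simp [red]
      rw [this]
      exact P.zero_mem
    | add f g _ _ hf hg =>
      have : red (f + g) = red f + red g := by ext j; simp [red]
      rw [this]
      exact P.add_mem hf hg
    | smul b f _ hf =>
      have : red (b • f) = (residue S b) • red f := by ext j; simp [red]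
      rw [this]
      exact P.smul_mem hf _
  have hPv : ∀ i I, (fun j => residue S (v i j I)) ∈ P := fun i I =>
    hPW (fun j => v i j I) (Submodule.subset_span ⟨(i, I), rfl⟩)
  obtain ⟨i, hi⟩ := H42.exists_selection P hPfg
  -- the homomorphisms
  let δ : Fin a → S := fun m => if (I0 i m).1 = (I0 i m).2 then 1 else 0
  let u : ℕ → Matrix (Fin e) (Fin e) S := fun j => Matrix.of fun p q =>
    ∑ m, δ m * v i j (Function.update (I0 i) m (p, q))
  have huii : u i = plu (α i) (I0 i) • (1 : Matrix (Fin e) (Fin e) S) := by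
    obtain ⟨x, hx⟩ := hgen i 1 (one_mem_Hm _)
    ext p q
    have h1 := plu_cramer (α i) (I0 i) x 1 hx (p, q)
    simp only [u, Matrix.of_apply, Matrix.smul_apply, smul_eq_mul, hvii]
    rw [← h1]
    refine Finset.sum_congr rfl (fun m _ => ?_)
    congr 1
  have huP : (fun j => residue S (u j).det) ∈ P := by
    have h1 : (fun j => residue S (u j).det) =
        fun j => (Matrix.of fun p q => residue S (u j p q)).det := by
      ext j
      rw [RingHom.map_det]
      rfl
    rw [h1]
    refine H42.det_mem _ (fun p q => ?_)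
    have h2 : (fun j => (Matrix.of fun p q => residue S (u j p q)) p q) =
        ∑ m, (residue S (δ m)) • fun j => residue S (v i j (Function.update (I0 i) m (p, q))) := by
      ext j
      simp [u]
    rw [h2]
    exact P.sum_mem (fun m _ => P.smul_mem (hPv i _) _)
  have hui : residue S (u i).det ≠ 0 := by
    rw [huii, Matrix.det_smul, Matrix.det_one, mul_one, map_pow]
    exact pow_ne_zero _ (by
      rw [residue_ne_zero_iff_isUnit]
      exact hI0 i)
  obtain ⟨j, hij, hj⟩ := hi _ huP hui
  refine ⟨i, j, hij, u j, ?_, ?_⟩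
  · have hd : c j * (G i).det ^ a ≠ 0 := mul_ne_zero (hc0 j) (pow_ne_zero _ (hG0 i))
    refine mem_Hm_of_smul hd ?_
    obtain ⟨x, hx⟩ := plu_span (fun l => G j * (G i).adjugate * α i l) (I0 i) δ
    have h1 : (c j * (G i).det ^ a) • u j =
        c i • ∑ l, x l • (G j * (G i).adjugate * α i l) := by
      ext p q
      have h2 := hx (p, q)
      simp only [Matrix.smul_apply, smul_eq_mul, Matrix.sum_apply]
      rw [← h2]
      simp only [u, Matrix.of_apply]
      rw [Finset.mul_sum, Finset.mul_sum]
      refine Finset.sum_congr rfl (fun m _ => ?_)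
      have h3 := hv i j (Function.update (I0 i) m (p, q))
      linear_combination (-(δ m)) * h3
    rw [h1]
    refine Submodule.smul_mem _ _ (Submodule.sum_mem _ (fun l _ => Submodule.smul_mem _ _ ?_))
    exact mul_mem_Hm (hα i l) (mul_mem_Hm (adjugate_mem_Hm (hG i) (hG0 i)) (hG j))
  · rw [← residue_ne_zero_iff_isUnit]
    exact hj

end H42.D2
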