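import Mathlib
import Pool.Agent.H42.FinalOne
import Pool.Agent.H96.RM.FreeReg
import Pool.Agent.H96.RM.SopReg
import Pool.Agent.H96.RM.LenLim

/-!
# Job D2-18: maximal Cohen-Macaulay modules of bounded multiplicity are free of bounded rank (helper42, MP_d7d607_ag)

`ys = [algebraMap S R x, algebraMap S R y]`.
(1) `algebraMap S R` is local (finite, hence integral: a unit of `R` in the image of `𝔪_S`... `R` is nontrivial local and integral over
`S`, so `𝔪_R ∩ S` is a maximal ideal of `S`, `Ideal.isMaximal_comap_of_isIntegral_of_isMaximal`, hence `= 𝔪_S`), so `ys ⊆ 𝔪_R`.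
(2) `R / (ys)` is a finite module over `S / 𝔪_S`, so an Artinian ring, so `𝔪_R ^ c ≤ (ys)` for some `c ≥ 1`.
(3) `H96.RM.PR_of_sop` (with the regular sequence `rs` of length `2 = dim R` in `MCMLe`): `PR R M ys`, in particular
`IsWeaklyRegular M ys` over `R`, hence `IsWeaklyRegular M [x, y]` over `S` (`isWeaklyRegular_map_algebraMap_iff`).
(4) `M` is finite over `S` (`Module.Finite.trans R M`), so `M` is `S`-free by `H96.RM.free_of_regular [x, y]`.
(5) `H96.RM.length_le_of_mult`: `length_R (M / (ys) M) ≤ c^2 * N =: b`; `H42.exists_generators_local` (file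
`Pool/Agent/H42/Gen.lean`): `M` is generated over `R` by `b` elements; `R` is generated over `S` by `g` elements, so `M` is generated over
`S` by `b * g` elements and `finrank S M ≤ b * g` (`finrank_le_of_span` / surjection from `S^(bg)`,
`LinearMap.finrank_le_finrank_of_surjective`).
-/

set_option autoImplicit false
set_option linter.unusedVariables false

namespace H42.D2

universe u v

open IsLocalRing

open scoped Pointwise in
lemma freeB_finrank {S : Type v} [CommRing S] [Nontrivial S] {R : Type u} [CommRing R]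
    [Algebra S R] {n b : ℕ} (f : Fin n → R) (hf : Submodule.span S (Set.range f) = ⊤)
    (M : Type u) [AddCommGroup M] [Module R M] [Module S M] [IsScalarTower S R M]
    (g : Fin b → M) (hg : Submodule.span R (Set.range g) = ⊤) :
    Module.finrank S M ≤ n * b := by
  have h1 := Submodule.span_smul_of_span_eq_top hf (Set.range g)
  rw [hg, Submodule.restrictScalars_top] at h1
  have h2 : Set.range f • Set.range g = Set.range (fun p : Fin n × Fin b => f p.1 • g p.2) := by
    ext x
    constructor
    · rintro ⟨_, ⟨i, rfl⟩, _, ⟨j, rfl⟩, rfl⟩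
      exact ⟨(i, j), rfl⟩
    · rintro ⟨⟨i, j⟩, rfl⟩
      exact ⟨f i, ⟨i, rfl⟩, g j, ⟨j, rfl⟩, rfl⟩
  rw [h2] at h1
  have h3 := finrank_range_le_card (R := S) (fun p : Fin n × Fin b => f p.1 • g p.2)
  rw [Set.finrank, h1, finrank_top, Fintype.card_prod, Fintype.card_fin, Fintype.card_fin] at h3
  exact h3

theorem free_bound {S : Type v} [CommRing S] [IsDomain S] [IsLocalRing S] [IsNoetherianRing S]
    (x y : S) (hm : maximalIdeal S = Ideal.span {x, y}) (R : Type u) [CommRing R]
    [IsLocalRing R] [IsNoetherianRing R] [Algebra S R] [Module.Finite S R]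
    (hd : ringKrullDim R = 2) (N : ℕ) :
    ∃ B : ℕ, ∀ (M : Type u) [AddCommGroup M] [Module R M] [Module S M] [IsScalarTower S R M],
      Module.Finite R M → H42.MCMLe R N M → Module.Free S M ∧ Module.finrank S M ≤ B := by
  have hcomap : ∀ J : Ideal R, J.IsMaximal → J.comap (algebraMap S R) = maximalIdeal S := by
    intro J hJ
    exact IsLocalRing.eq_maximalIdeal (Ideal.isMaximal_comap_of_isIntegral_of_isMaximal J)
  have hxy : Ideal.ofList [x, y] = maximalIdeal S := by
    rw [hm]
    unfold Ideal.ofList
    congr 1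
    ext r
    simp
  have hxm : ∀ s ∈ maximalIdeal S, algebraMap S R s ∈ maximalIdeal R := by
    intro s hs
    rw [← hcomap (maximalIdeal R) (maximalIdeal.isMaximal R)] at hs
    exact hs
  have hmap : ([x, y] : List S).map (algebraMap S R) = [algebraMap S R x, algebraMap S R y] := rfl
  set ys : List R := ([x, y] : List S).map (algebraMap S R) with hysdef
  have hx : x ∈ maximalIdeal S := by
    rw [hm]
    exact Ideal.subset_span (by simp)
  have hy : y ∈ maximalIdeal S := by
    rw [hm]
    exact Ideal.subset_span (by simp)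
  have hys : ∀ z ∈ ys, z ∈ maximalIdeal R := by
    intro z hz
    rw [hmap] at hz
    simp only [List.mem_cons, List.not_mem_nil, or_false] at hz
    rcases hz with rfl | rfl
    · exact hxm x hx
    · exact hxm y hy
  have hI : Ideal.ofList ys = (maximalIdeal S).map (algebraMap S R) := by
    rw [← hxy, hysdef, Ideal.map_ofList]
  have hrad : (Ideal.ofList ys).radical = maximalIdeal R := by
    apply le_antisymm
    · have h1 : Ideal.ofList ys ≤ maximalIdeal R := by
        unfold Ideal.ofList
        rw [Ideal.span_le]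
        exact fun z hz => hys z hz
      exact ((maximalIdeal.isMaximal R).isPrime.radical_le_iff).2 h1
    · rw [Ideal.radical_eq_sInf]
      refine le_sInf ?_
      rintro J ⟨hJ, hJp⟩
      have h1 : maximalIdeal S ≤ J.comap (algebraMap S R) := by
        rw [← Ideal.map_le_iff_le_comap, ← hI]
        exact hJ
      have h2 : J.comap (algebraMap S R) = maximalIdeal S :=
        ((maximalIdeal.isMaximal S).eq_of_le (Ideal.comap_ne_top _ hJp.ne_top) h1).symm
      have h3 : (J.comap (algebraMap S R)).IsMaximal := by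
        rw [h2]
        exact maximalIdeal.isMaximal S
      have h4 : J.IsMaximal := Ideal.isMaximal_of_isIntegral_of_isMaximal_comap J h3
      rw [IsLocalRing.eq_maximalIdeal h4]
  obtain ⟨c, hc⟩ := Ideal.exists_radical_pow_le_of_fg (Ideal.ofList ys) (by
    rw [hrad]
    exact IsNoetherian.noetherian _)
  rw [hrad] at hc
  have hc1 : maximalIdeal R ^ (c + 1) ≤ Ideal.ofList ys :=
    (Ideal.pow_le_pow_right (Nat.le_succ c)).trans hc
  obtain ⟨n, f, hf⟩ := Module.Finite.exists_fin (R := S) (M := R)
  refine ⟨n * ((c + 1) ^ 2 * N), ?_⟩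
  intro M _ _ _ _ hfin hM
  obtain ⟨rs, hrs, hreg, hlen, e, he, hlim⟩ := hM
  have hl2 : rs.length = 2 := by
    rw [hd] at hlen
    exact_mod_cast hlen
  have hyl : ys.length = 2 := rfl
  have hPR : H96.RM.PR R M ys := H96.RM.PR_of_sop M rs hrs hreg hlen ys hys
    (by rw [hyl, hl2]) (c + 1) hc1
  have hwr : RingTheory.Sequence.IsWeaklyRegular M ys := hPR ys (List.Perm.refl _)
  have hwr' : RingTheory.Sequence.IsWeaklyRegular M [x, y] := by
    rw [hysdef] at hwr
    exact (RingTheory.Sequence.isWeaklyRegular_map_algebraMap_iff R M [x, y]).1 hwr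
  have hfS : Module.Finite S M := Module.Finite.trans R M
  refine ⟨H96.RM.free_of_regular [x, y] hxy M hwr', ?_⟩
  have hlen2 : Module.length R (M ⧸ (Ideal.ofList ys • (⊤ : Submodule R M))) ≤
      (((c + 1) ^ ys.length * N : ℕ) : ℕ∞) := by
    refine H96.RM.length_le_of_mult M ys hys hPR (c + 1) (by omega) hc1 N e he ?_
    rw [hyl, ← hl2]
    exact hlim
  have hle : Ideal.ofList ys • (⊤ : Submodule R M) ≤ maximalIdeal R • (⊤ : Submodule R M) := by
    refine Submodule.smul_mono_left ?_
    unfold Ideal.ofList
    rw [Ideal.span_le]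
    exact fun z hz => hys z hz
  rw [hyl] at hlen2
  obtain ⟨g, hg⟩ := H42.exists_generators_local ((c + 1) ^ 2 * N) M _ hle hlen2
  exact freeB_finrank f hf M g hg

end H42.D2
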