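import Mathlib
import Pool.Agent.H96.RM.PiLemma

/-!
# Job D2-03: power series in two variables (helper42, MP_d7d607_ag)

`x = X 0`, `y = X 1`.  `H96.RM.pi_span (RingHom.id _) Function.surjective_id` gives the maximal ideal.
`x ≠ 0`: `MvPowerSeries.X_ne_zero` or a coefficient.  `x ∣ y * s → x ∣ s`: `MvPowerSeries.X_dvd_iff` (`X i ∣ F` iff all
coefficients at `m` with `m i = 0` vanish), the coefficient of `y * s` at `m + single 1 1` is the coefficient of `s` at `m`
(`MvPowerSeries.coeff_add_monomial_mul`, `MvPowerSeries.X_def`).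
-/

set_option autoImplicit false
set_option linter.unusedVariables false

namespace H42.D2

open IsLocalRing

theorem ps_pair (k : Type*) [Field k] :
    ∃ x y : MvPowerSeries (Fin 2) k,
      maximalIdeal (MvPowerSeries (Fin 2) k) = Ideal.span {x, y} ∧ x ≠ 0 ∧
      ∀ s : MvPowerSeries (Fin 2) k, x ∣ y * s → x ∣ s := by
  classical
  refine ⟨MvPowerSeries.X 0, MvPowerSeries.X 1, ?_, ?_, ?_⟩
  · have h1 := H96.RM.pi_span (RingHom.id (MvPowerSeries (Fin 2) k)) Function.surjective_id
    rw [← h1]
    congr 1
    ext F
    simp only [RingHom.id_apply, Set.mem_range, Fin.exists_fin_two, Set.mem_insert_iff,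
      Set.mem_singleton_iff]
    constructor
    · rintro (h | h)
      · exact Or.inl h.symm
      · exact Or.inr h.symm
    · rintro (h | h)
      · exact Or.inl h.symm
      · exact Or.inr h.symm
  · intro h
    have h1 := congrArg (MvPowerSeries.coeff (Finsupp.single (0 : Fin 2) 1)) h
    rw [MvPowerSeries.coeff_X, if_pos rfl, map_zero] at h1
    exact one_ne_zero h1
  · intro s hs
    rw [MvPowerSeries.X_dvd_iff] at hs ⊢
    intro m hm
    have h1 := hs (Finsupp.single 1 1 + m) (by
      rw [Finsupp.add_apply, hm, Finsupp.single_apply]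
      simp)
    rw [MvPowerSeries.X_def, MvPowerSeries.coeff_add_monomial_mul, one_mul] at h1
    exact h1

end H42.D2
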