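import Mathlib

/-!
# Job D2-02: regular local rings of dimension two (helper42, MP_d7d607_ag)

`exists_regular_pair`: `S` regular local of dimension `2` is a domain and its maximal ideal is `(x, y)` with `x ≠ 0` and
`y` a nonzerodivisor modulo `x`.

Proof.  `(maximalIdeal S).spanFinrank = 2` gives `𝔪 = (x, y)`.
(1) `dim S/(x) ≥ 1`: otherwise `𝔪` is minimal over `(x)`, so `dim S = height 𝔪 ≤ 1` by Krull's height theorem
(`Ideal.height_le_one_of_isPrincipal_of_mem_minimalPrimes` or so).
(2) `T = S/(x)` is Noetherian local with maximal ideal `(ȳ)`, `ȳ` is not nilpotent (else `𝔪 ⊆ rad (x)` and `𝔪` is minimal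
over `(x)`); every nonzero element of `T` is `unit * ȳ^n` (Krull intersection), so `T` is a domain: `(x)` is prime, and
every prime of `S` strictly containing `(x)` is `𝔪`.
(3) There is a chain `Q₀ < Q₁ < 𝔪` of primes.  `x ∉ Q₀` (otherwise `(x) ≤ Q₀ < Q₁ < 𝔪` contradicts (2)).
`Q₀ ≤ (x)`: if not, `Q₀ + (x)` is an ideal strictly containing `(x)`, so it contains `y^n` for some `n` (in `T` every nonzero
element is `unit * ȳ^n`), so `𝔪` is minimal over the ideal `(Q₀ + (x))`, i.e. in the domain `S/Q₀` the maximal ideal is minimal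
over a principal ideal, so it has height `≤ 1`, but `Q₀ < Q₁ < 𝔪`, contradiction.
(4) `q ∈ Q₀`: `q = x s`, `x ∉ Q₀`, so `s ∈ Q₀`: `Q₀ = x Q₀`, `Q₀ = 0` by Nakayama.  So `S` is a domain (and `x ≠ 0`).
(5) `x ∣ y s → x ∣ s`: `(x)` is prime and `y ∉ (x)` by (2).
-/

set_option autoImplicit false
set_option linter.unusedVariables false

namespace H42.D2

open IsLocalRing

/-- a prime containing `x` but not `y` is generated by `x` if `𝔪 = (x, y)` -/
theorem regDom_prime {S : Type*} [CommRing S] [IsLocalRing S] [IsNoetherianRing S] {x y : S}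
    (hm : maximalIdeal S = Ideal.span {x, y}) (q : Ideal S) [hq : q.IsPrime] (hx : x ∈ q)
    (hy : y ∉ q) : q = Ideal.span {x} := by
  apply le_antisymm
  · refine Submodule.le_of_le_smul_of_le_jacobson_bot (I := maximalIdeal S)
      (IsNoetherian.noetherian q) (maximalIdeal_le_jacobson ⊥) ?_
    intro z hz
    have hzm : z ∈ Ideal.span {x, y} := by
      rw [← hm]
      exact le_maximalIdeal hq.ne_top hz
    obtain ⟨a, b, rfl⟩ := Ideal.mem_span_pair.1 hzm
    have h1 : b * y ∈ q := by
      have h2 := q.sub_mem hz (q.mul_mem_left a hx)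
      rwa [add_sub_cancel_left] at h2
    have hb : b ∈ q := (hq.mem_or_mem h1).resolve_right hy
    apply Submodule.add_mem_sup
    · exact Ideal.mul_mem_left _ _ (Ideal.mem_span_singleton_self x)
    · rw [mul_comm]
      have hym : y ∈ maximalIdeal S := by
        rw [hm]
        exact Ideal.subset_span (by simp)
      exact Submodule.smul_mem_smul hym hb
  · rw [Ideal.span_singleton_le_iff_mem]
    exact hx

theorem exists_regular_pair (S : Type*) [CommRing S] [IsRegularLocalRing S]
    (hd : ringKrullDim S = 2) :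
    IsDomain S ∧ ∃ x y : S, maximalIdeal S = Ideal.span {x, y} ∧ x ≠ 0 ∧
      ∀ s : S, x ∣ y * s → x ∣ s := by
  have hfg : (maximalIdeal S).FG := IsNoetherian.noetherian _
  have hrank : (maximalIdeal S).spanFinrank = 2 := by
    have h := IsRegularLocalRing.spanFinrank_maximalIdeal (R := S)
    rw [hd] at h
    exact_mod_cast h
  obtain ⟨x, y, -, hxy⟩ := Set.ncard_eq_two.1 ((Submodule.FG.generators_ncard hfg).trans hrank)
  have hm : maximalIdeal S = Ideal.span {x, y} := by
    rw [← hxy]
    exact (Submodule.span_generators _).symm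
  have hxm : x ∈ maximalIdeal S := by
    rw [hm]
    exact Ideal.subset_span (by simp)
  have hym : y ∈ maximalIdeal S := by
    rw [hm]
    exact Ideal.subset_span (by simp)
  have hlt : ∀ q : Ideal S, q < maximalIdeal S → x ∈ q → y ∉ q := by
    intro q hq hx hy
    apply not_le_of_gt hq
    rw [hm, Ideal.span_le]
    rintro z (rfl | hz)
    · exact hx
    · rw [Set.mem_singleton_iff] at hz
      rw [hz]
      exact hy
  have hh : (maximalIdeal S).height = 2 := by
    have h := maximalIdeal_height_eq_ringKrullDim (R := S)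
    rw [hd] at h
    exact WithBot.coe_injective h
  -- the chain
  obtain ⟨Q₁, hQ₁, h1m, hQ₁h⟩ : ∃ q : Ideal S, q.IsPrime ∧ q < maximalIdeal S ∧ ¬ q.height < 1 := by
    by_contra hcon
    push Not at hcon
    have h1 : (maximalIdeal S).height ≤ (1 : ℕ) :=
      Ideal.height_le_iff.2 fun q hq hlt => by exact_mod_cast hcon q hq hlt
    rw [hh] at h1
    norm_num at h1
  obtain ⟨Q₀, hQ₀, h01⟩ : ∃ q : Ideal S, q.IsPrime ∧ q < Q₁ := by
    by_contra hcon
    push Not at hcon
    apply hQ₁h
    have h1 : Q₁.height ≤ (0 : ℕ) := Ideal.height_le_iff.2 fun q hq hlt => absurd hlt (hcon q hq)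
    exact lt_of_le_of_lt h1 (by norm_num)
  have h0m : Q₀ < maximalIdeal S := h01.trans h1m
  have hx0 : x ∉ Q₀ := by
    intro hx
    have e0 := regDom_prime hm Q₀ hx (hlt Q₀ h0m hx)
    have e1 := regDom_prime hm Q₁ (h01.le hx) (hlt Q₁ h1m (h01.le hx))
    rw [e0, e1] at h01
    exact lt_irrefl _ h01
  -- a minimal prime over `Q₀ + (x)`
  obtain ⟨q, hq, hqm⟩ := Ideal.exists_minimalPrimes_le (I := Q₀ ⊔ Ideal.span {x})
    (J := maximalIdeal S) (sup_le h0m.le (by
      rw [Ideal.span_singleton_le_iff_mem]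
      exact hxm))
  have hqp : q.IsPrime := hq.1.1
  have hq0 : Q₀ ≤ q := le_sup_left.trans hq.1.2
  have hqx : x ∈ q := hq.1.2 (Ideal.mem_sup_right (Ideal.mem_span_singleton_self x))
  have hqne : q ≠ maximalIdeal S := by
    intro h
    have h1 := Ideal.map_height_le_one_of_mem_minimalPrimes hq
    rw [h] at h1
    have p1 : (Q₁.map (Ideal.Quotient.mk Q₀)).IsPrime :=
      Ideal.isPrime_map_quotientMk_of_isPrime h01.le
    have pm : ((maximalIdeal S).map (Ideal.Quotient.mk Q₀)).IsPrime :=
      Ideal.isPrime_map_quotientMk_of_isPrime h0m.le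
    have p0 : (Q₀.map (Ideal.Quotient.mk Q₀)).IsPrime :=
      Ideal.isPrime_map_quotientMk_of_isPrime le_rfl
    have hmono : ∀ I J : Ideal S, Q₀ ≤ I → Q₀ ≤ J → I < J →
        I.map (Ideal.Quotient.mk Q₀) < J.map (Ideal.Quotient.mk Q₀) := by
      intro I J hI hJ hIJ
      refine lt_of_le_of_ne (Ideal.map_mono hIJ.le) fun he => ?_
      have := congrArg (Ideal.comap (Ideal.Quotient.mk Q₀)) he
      rw [Ideal.comap_map_mk hI, Ideal.comap_map_mk hJ] at this
      exact hIJ.ne this
    have l1 := hmono Q₀ Q₁ le_rfl h01.le h01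
    have l2 := hmono Q₁ (maximalIdeal S) h01.le h0m.le h1m
    have h2 : ((maximalIdeal S).map (Ideal.Quotient.mk Q₀)).height ≤ (1 : ℕ) := by
      exact_mod_cast h1
    have h3 := Ideal.height_le_iff.1 h2 _ p1 l2
    have h4 : (Q₁.map (Ideal.Quotient.mk Q₀)).height ≤ (0 : ℕ) := by
      have : (Q₁.map (Ideal.Quotient.mk Q₀)).height < 1 := by exact_mod_cast h3
      rw [Order.lt_one_iff] at this
      rw [this]
      exact le_rfl
    have h5 := Ideal.height_le_iff.1 h4 _ p0 l1
    exact absurd h5 (by simp)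
  have hqlt : q < maximalIdeal S := lt_of_le_of_ne hqm hqne
  have hqe := regDom_prime hm q hqx (hlt q hqlt hqx)
  -- `Q₀ = 0`
  have hQ₀bot : Q₀ = ⊥ := by
    refine Submodule.eq_bot_of_le_smul_of_le_jacobson_bot (maximalIdeal S) Q₀
      (IsNoetherian.noetherian _) ?_ (maximalIdeal_le_jacobson ⊥)
    intro z hz
    have hz' : z ∈ Ideal.span {x} := hqe ▸ hq0 hz
    obtain ⟨s, rfl⟩ := Ideal.mem_span_singleton'.1 hz'
    have hs : s ∈ Q₀ := (hQ₀.mem_or_mem hz).resolve_right hx0
    rw [mul_comm]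
    exact Submodule.smul_mem_smul hxm hs
  have hdom : IsDomain S := by
    rw [hQ₀bot] at hQ₀
    exact IsDomain.of_bot_isPrime S
  refine ⟨hdom, x, y, hm, ?_, ?_⟩
  · rintro rfl
    exact hx0 Q₀.zero_mem
  · intro s hs
    rw [← Ideal.mem_span_singleton, ← hqe] at hs ⊢
    exact (hqp.mem_or_mem hs).resolve_left (hlt q hqlt hqx)

end H42.D2
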