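import Mathlib
import Pool.Agent.H42.D2.Base

/-!
# Job D2-17: modules whose self-extensions split are rigid representations (helper42, MP_d7d607_ag)

`rig_mrep`: let `D : R →ₗ[S] Mat` be a derivation for `ρ = mrep b`, `D' a : M →ₗ[S] M` the endomorphism with matrix `D a` in the basis `b`
(`Matrix.toLin b b` / `LinearMap.toMatrixAlgEquiv`), so `D' (a c) = a • D' c + D' a (c • ·)`.  Let `E` be `M × M` (a type synonym,
e.g. a structure or `def`) with `a • (m, m') = (a • m + D' a m', a • m')`: an `R`-module (`D' 1 = 0` follows from the derivation rule).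
`f m = (m, 0)`, `g (m, m') = m'` are `R`-linear, exact.  A splitting `s m = (h m, m)`; `s (a m) = a s m` gives
`h (a m) = a h m + D' a m`; `h` is `S`-linear (take `a = algebraMap s`: `D' (algebraMap s) = s • D' 1 = 0`).  So
`D' a = h ∘ a - a ∘ h`, and `U = - matrix of h` satisfies `D a = ρ a * U - U * ρ a`.
`equiv_of_unit`: `U ∈ Hm (mrep b) (mrep b')` is the matrix of an `R`-linear map `M → M'` (`Matrix.toLin b b'`), bijective as `det U` is
a unit (`Matrix.toLin` of `U⁻¹` is the inverse).
-/

set_option autoImplicit false
set_option linter.unusedVariables false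

namespace H42.D2

universe u v

section

variable {S : Type v} {R : Type u} {M : Type u} {M' : Type u} [CommRing S] [CommRing R]
  [Algebra S R] [AddCommGroup M] [Module R M] [Module S M] [IsScalarTower S R M]
  [AddCommGroup M'] [Module R M'] [Module S M'] [IsScalarTower S R M'] {e : ℕ}

/-- The matrix representation of an `R`-module with an `S`-basis. -/
noncomputable def mrep (b : Module.Basis (Fin e) S M) : R →ₐ[S] Matrix (Fin e) (Fin e) S :=
  (LinearMap.toMatrixAlgEquiv b).toAlgHom.comp (Algebra.lsmul S S M)

theorem rigM_mrep_toLin (b : Module.Basis (Fin e) S M) (a : R) :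
    (LinearMap.toMatrixAlgEquiv b).symm (mrep (R := R) b a) = Algebra.lsmul S S M a :=
  AlgEquiv.symm_apply_apply _ _

/-- the carrier of the extension -/
def rigME (M : Type u) : Type u := M × M

instance rigME_grp : AddCommGroup (rigME M) := inferInstanceAs (AddCommGroup (M × M))

/-- the extension defined by a derivation -/
@[reducible] noncomputable def rigM_mod (D' : R →ₗ[S] Module.End S M)
    (hD : ∀ a c m, D' (a * c) m = a • D' c m + D' a (c • m)) : Module R (rigME M) where
  smul a x := (a • x.1 + D' a x.2, a • x.2)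
  one_smul x := by
    have h1 : ∀ m, D' 1 m = 0 := by
      intro m
      have h := hD 1 1 m
      rw [mul_one, one_smul, one_smul] at h
      exact left_eq_add.1 h
    change ((1 : R) • x.1 + D' 1 x.2, (1 : R) • x.2) = x
    rw [one_smul, one_smul, h1, add_zero]
    rfl
  mul_smul a c x := by
    change ((a * c) • x.1 + D' (a * c) x.2, (a * c) • x.2) =
      (a • (c • x.1 + D' c x.2) + D' a (c • x.2), a • (c • x.2))
    rw [hD, smul_add, mul_smul, mul_smul, add_assoc]
  smul_zero a := by
    change (a • (0 : M) + D' a 0, a • (0 : M)) = (0, 0)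
    rw [smul_zero, map_zero, add_zero]
  smul_add a x y := by
    change (a • (x.1 + y.1) + D' a (x.2 + y.2), a • (x.2 + y.2)) =
      ((a • x.1 + D' a x.2) + (a • y.1 + D' a y.2), a • x.2 + a • y.2)
    rw [smul_add, smul_add, map_add]
    congr 1
    abel
  add_smul a c x := by
    change ((a + c) • x.1 + D' (a + c) x.2, (a + c) • x.2) =
      ((a • x.1 + D' a x.2) + (c • x.1 + D' c x.2), a • x.2 + c • x.2)
    rw [add_smul, add_smul, map_add, LinearMap.add_apply]
    congr 1
    abel
  zero_smul x := by
    change ((0 : R) • x.1 + D' 0 x.2, (0 : R) • x.2) = (0, 0)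
    rw [zero_smul, zero_smul, map_zero, LinearMap.zero_apply, add_zero]

theorem rig_mrep (b : Module.Basis (Fin e) S M)
    (h : ∀ (E : Type u) [AddCommGroup E] [Module R E] (f : M →ₗ[R] E) (g : E →ₗ[R] M),
      Function.Injective f → Function.Surjective g → LinearMap.range f = LinearMap.ker g →
      ∃ s : M →ₗ[R] E, g ∘ₗ s = LinearMap.id) : Rig (mrep (R := R) b) := by
  intro D hDer
  set T := LinearMap.toMatrixAlgEquiv b with hT
  let D' : R →ₗ[S] Module.End S M := T.symm.toLinearMap ∘ₗ D
  have hD'a : ∀ a, D' a = T.symm (D a) := fun _ => rfl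
  have hρ : ∀ a : R, T.symm (mrep (R := R) b a) = Algebra.lsmul S S M a :=
    rigM_mrep_toLin b
  have hD : ∀ a c m, D' (a * c) m = a • D' c m + D' a (c • m) := by
    intro a c m
    rw [hD'a, hD'a, hD'a, hDer, map_add, map_mul, map_mul, hρ, hρ]
    rfl
  let _ : Module R (rigME M) := rigM_mod D' hD
  have hsmul : ∀ (a : R) (x : rigME M), a • x = ((a • x.1 + D' a x.2, a • x.2) : M × M) :=
    fun _ _ => rfl
  let f : M →ₗ[R] rigME M :=
    { toFun := fun m => ((m, 0) : M × M)
      map_add' := by
        intro m m'
        change ((m + m', 0) : M × M) = (m + m', 0 + 0)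
        rw [add_zero]
      map_smul' := by
        intro a m
        change ((a • m, 0) : M × M) = (a • m + D' a 0, a • (0 : M))
        rw [map_zero, add_zero, smul_zero] }
  let g : rigME M →ₗ[R] M :=
    { toFun := fun x => x.2
      map_add' := fun _ _ => rfl
      map_smul' := fun _ _ => rfl }
  obtain ⟨s, hs⟩ := h (rigME M) f g
    (by
      intro m m' hm
      exact congrArg Prod.fst (hm : ((m, 0) : M × M) = (m', 0)))
    (fun m => ⟨((0, m) : M × M), rfl⟩)
    (by
      ext x
      rw [LinearMap.mem_range, LinearMap.mem_ker]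
      constructor
      · rintro ⟨m, rfl⟩
        rfl
      · intro hx
        have hx' : x.2 = 0 := hx
        refine ⟨x.1, ?_⟩
        change ((x.1, 0) : M × M) = x
        rw [← hx']
        rfl)
  have hs2 : ∀ m, (s m).2 = m := fun m => LinearMap.congr_fun hs m
  have hs1 : ∀ (a : R) (m : M), (s (a • m)).1 = a • (s m).1 + D' a m := by
    intro a m
    have h1 := congrArg Prod.fst ((s.map_smul a m).trans (hsmul a (s m)))
    have h2 : (s (a • m)).1 = a • (s m).1 + D' a (s m).2 := h1
    rw [h2, hs2]
  have hD1 : ∀ m, D' 1 m = 0 := by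
    intro m
    have h := hD 1 1 m
    rw [mul_one, one_smul, one_smul] at h
    exact left_eq_add.1 h
  let k : Module.End S M :=
    { toFun := fun m => (s m).1
      map_add' := by
        intro m m'
        have h1 := congrArg Prod.fst (s.map_add m m')
        exact h1
      map_smul' := by
        intro c m
        have h1 := hs1 (algebraMap S R c) m
        have h2 : D' (algebraMap S R c) m = 0 := by
          rw [Algebra.algebraMap_eq_smul_one, map_smul, LinearMap.smul_apply, hD1, smul_zero]
        rw [h2, add_zero, algebraMap_smul, algebraMap_smul] at h1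
        exact h1 }
  refine ⟨-(T k), fun a => ?_⟩
  have h3 : D' a = k * Algebra.lsmul S S M a - Algebra.lsmul S S M a * k := by
    ext m
    have h4 := hs1 a m
    change D' a m = (s (a • m)).1 - a • (s m).1
    rw [h4]
    abel
  have h5 : D a = T (D' a) := by
    rw [hD'a, AlgEquiv.apply_symm_apply]
  have h6 : T (Algebra.lsmul S S M a) = mrep (R := R) b a := rfl
  rw [h5, h3, map_sub, map_mul, map_mul, h6]
  rw [mul_neg, neg_mul]
  abel

theorem equiv_of_unit (b : Module.Basis (Fin e) S M) (b' : Module.Basis (Fin e) S M')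
    (U : Matrix (Fin e) (Fin e) S) (hU : U ∈ Hm (mrep (R := R) b) (mrep (R := R) b'))
    (hdet : IsUnit U.det) : Nonempty (M ≃ₗ[R] M') := by
  have hlin : ∀ (a : R) (m : M), Matrix.toLin b b' U (a • m) = a • Matrix.toLin b b' U m := by
    intro a m
    have h1 := hU a
    have h2 := congrArg (Matrix.toLin b b') h1
    rw [Matrix.toLin_mul b b' b', Matrix.toLin_mul b b b'] at h2
    have h3 : Matrix.toLin b' b' (mrep (R := R) b' a) = Algebra.lsmul S S M' a :=
      Matrix.toLin_toMatrix b' b' _
    have h4 : Matrix.toLin b b (mrep (R := R) b a) = Algebra.lsmul S S M a :=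
      Matrix.toLin_toMatrix b b _
    rw [h3, h4] at h2
    exact (LinearMap.congr_fun h2 m).symm
  have e1 : ∀ m, Matrix.toLin b' b U⁻¹ (Matrix.toLin b b' U m) = m := by
    intro m
    have h1 := Matrix.toLin_mul b b' b U⁻¹ U
    rw [Matrix.nonsing_inv_mul U hdet, Matrix.toLin_one] at h1
    exact (LinearMap.congr_fun h1 m).symm
  have e2 : ∀ m, Matrix.toLin b b' U (Matrix.toLin b' b U⁻¹ m) = m := by
    intro m
    have h1 := Matrix.toLin_mul b' b b' U U⁻¹
    rw [Matrix.mul_nonsing_inv U hdet, Matrix.toLin_one] at h1
    exact (LinearMap.congr_fun h1 m).symm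
  exact ⟨{ toFun := Matrix.toLin b b' U
           invFun := Matrix.toLin b' b U⁻¹
           map_add' := map_add _
           map_smul' := hlin
           left_inv := e1
           right_inv := e2 }⟩

end

end H42.D2
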