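import Mathlib
import Pool.Agent.H42.D2.Bad
import Pool.Agent.H42.D2.BasisEnd
import Pool.Agent.H42.D2.FinalStep

/-!
# Two members of a sequence of rigid representations are isomorphic (seat helper42, MP_d7d607_ag)
-/

set_option autoImplicit false
set_option linter.unusedSectionVars false

namespace H42.D2

variable {S : Type*} [CommRing S] [IsDomain S] [IsLocalRing S] [IsNoetherianRing S]
  {R : Type*} [Ring R] [Algebra S R] [Module.Finite S R] {e : ℕ}

theorem seq_rep (h : FK S) (ρ : ℕ → (R →ₐ[S] Matrix (Fin e) (Fin e) S)) (hρ : ∀ i, Rig (ρ i)) :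
    ∃ i j, i < j ∧ ∃ U ∈ Hm (ρ i) (ρ j), IsUnit U.det := by
  classical
  have : UniqueFactorizationMonoid S := ufm_of_FK h
  obtain ⟨φ, hφ, hgn, hloc⟩ := exists_subseq_loc h ρ hρ
  have hrank : ∀ i, Module.finrank S (Hm (ρ (φ i)) (ρ (φ i))) =
      Module.finrank S (Hm (ρ (φ 0)) (ρ (φ 0))) := by
    intro i
    rw [finrank_Hm_eq_left (hgn i 0), ← finrank_Hm_eq_right (ρ (φ 0)) (hgn 0 i)]
  have hbasis : ∀ i, ∃ α : Fin (Module.finrank S (Hm (ρ (φ 0)) (ρ (φ 0)))) →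
      Matrix (Fin e) (Fin e) S,
      (∀ l, α l ∈ Hm (ρ (φ i)) (ρ (φ i))) ∧
      (∀ U ∈ Hm (ρ (φ i)) (ρ (φ i)), ∃ c : Fin (Module.finrank S (Hm (ρ (φ 0)) (ρ (φ 0)))) → S,
        U = ∑ l, c l • α l) ∧
      ∃ I : Fin (Module.finrank S (Hm (ρ (φ 0)) (ρ (φ 0)))) → Fin e × Fin e,
        IsUnit (Matrix.det (Matrix.of fun l m => α l (I m).1 (I m).2)) := by
    intro i
    have key := exists_basis_end h (ρ (φ i)) (hρ (φ i))
    rw [hrank i] at key
    exact key
  choose α hα hgen hunit using hbasis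
  obtain ⟨i, j, hij, U, hU, hdet⟩ := final_step (fun i => ρ (φ i)) (fun j => hgn 0 j)
    (fun j p hp => hloc 0 j p hp) α hα hgen hunit
  exact ⟨φ i, φ j, hφ hij, U, hU, hdet⟩

end H42.D2
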