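import Mathlib
import Pool.Agent.H42.D2.SeqRep
import Pool.Agent.H42.D2.RigM
import Pool.Agent.H42.D2.FreeB
import Pool.Agent.H42.D2.FKreg

/-!
# Sequences of rigid modules in dimension two (seat helper42, MP_d7d607_ag)
-/

set_option autoImplicit false
set_option linter.unusedSectionVars false

namespace H42.D2

universe u v

open IsLocalRing

theorem seq_mod {S : Type v} [CommRing S] [IsDomain S] [IsLocalRing S] [IsNoetherianRing S]
    (x y : S) (hm : maximalIdeal S = Ideal.span {x, y}) (hx : x ≠ 0)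
    (hy : ∀ s : S, x ∣ y * s → x ∣ s) (R : Type u) [CommRing R]
    [IsLocalRing R] [IsNoetherianRing R] [Algebra S R] [Module.Finite S R]
    (hd : ringKrullDim R = 2) (N : ℕ) (f : ℕ → ModuleCat.{u} R)
    (hfin : ∀ n, Module.Finite R (f n)) (hM : ∀ n, H42.MCMLe R N (f n))
    (hsplit : ∀ n, ∀ (E : Type u) [AddCommGroup E] [Module R E] (g : f n →ₗ[R] E)
      (h : E →ₗ[R] f n), Function.Injective g → Function.Surjective h →
      LinearMap.range g = LinearMap.ker h → ∃ s : f n →ₗ[R] E, h ∘ₗ s = LinearMap.id) :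
    ∃ i j, i < j ∧ Nonempty (f i ≃ₗ[R] f j) := by
  classical
  have hFK : FK S := FK_of_regular x y hm hx hy
  obtain ⟨B, hB⟩ := free_bound x y hm R hd N
  let _ : ∀ n, Module S (f n) := fun n => Module.compHom (f n) (algebraMap S R)
  have htower : ∀ n, IsScalarTower S R (f n) := fun n =>
    ⟨fun s r m => by
      rw [Algebra.smul_def, mul_smul]
      rfl⟩
  have h1 := fun n => hB (f n) (hfin n) (hM n)
  have hfinS : ∀ n, Module.Finite S (f n) := fun n => Module.Finite.trans R (f n)
  -- constant rank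
  obtain ⟨e, φ, hφ, he⟩ := exists_const_subseq
    (fun n => (⟨Module.finrank S (f n), Nat.lt_succ_of_le (h1 n).2⟩ : Fin (B + 1)))
  have hfree : ∀ n, Module.Free S (f n) := fun n => (h1 n).1
  have hrank : ∀ n, Module.finrank S (f (φ n)) = e := fun n => congrArg Fin.val (he n)
  let b : ∀ n, Module.Basis (Fin e) S (f (φ n)) := fun n =>
    Module.finBasisOfFinrankEq S (f (φ n)) (hrank n)
  obtain ⟨i, j, hij, U, hU, hdet⟩ := seq_rep hFK (fun n => mrep (R := R) (b n))
    (fun n => rig_mrep (b n) (hsplit (φ n)))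
  exact ⟨φ i, φ j, hφ hij, equiv_of_unit (b i) (b j) U hU hdet⟩

end H42.D2
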