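import Mathlib
import Pool.Agent.H96.RM.SopExist

/-!
# Job D2-19: systems of parameters in dimension two (helper42, MP_d7d607_ag)

`H96.RM.exists_avoid` gives `x ∈ 𝔪` in no minimal prime of `R` (`minimalPrimes R` is finite, none of them is `𝔪` as `dim R = 2`).  Then
`ringKrullDim (R ⧸ span {x}) ≤ 1` (a chain of primes over `(x)` of length `2` could be extended by a minimal prime below its first member;
or Mathlib's `ringKrullDim_quotient_succ_le_of_nonZeroDivisor`-type lemmas for a general `x` outside the minimal primes, e.g.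
`ringKrullDim_quotient...`).  `H96.RM.exists_sop 1 hd (span {x}) _` gives `z` and `y : Fin 1 → R`; take `![z, y 0]`.
-/

set_option autoImplicit false
set_option linter.unusedVariables false

namespace H42.D2

universe u

open IsLocalRing

theorem exists_sop_two {R : Type u} [CommRing R] [IsLocalRing R] [IsNoetherianRing R]
    (hd : ringKrullDim R = 2) :
    ∃ (y : Fin 2 → R) (c : ℕ), (∀ i, y i ∈ maximalIdeal R) ∧
      maximalIdeal R ^ c ≤ Ideal.span (Set.range y) := by
  have hd' : ringKrullDim R = ((1 + 1 : ℕ) : WithBot ℕ∞) := by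
    rw [hd]
    norm_num
  obtain ⟨x, hx, hav⟩ := H96.RM.exists_avoid (R := R)
    ({p | p ∈ minimalPrimes R ∧ p ≠ maximalIdeal R})
    (by
      refine Set.Finite.subset (minimalPrimes.finite_of_isNoetherianRing R) ?_
      rintro p ⟨hp, -⟩
      exact hp)
    (by
      rintro p ⟨hp, hne⟩
      exact ⟨hp.1.1, hne⟩)
  have hdim : ringKrullDim (R ⧸ Ideal.span {x}) ≤ ((1 : ℕ) : WithBot ℕ∞) :=
    H96.RM.dim_quot_le 1 hd'.le x hx (fun p hp hne => hav p ⟨hp, hne⟩)
  obtain ⟨z, y, hz, hy, c, hc⟩ := H96.RM.exists_sop 1 hd' (Ideal.span {x}) (by simpa using hdim)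
  refine ⟨![z, y 0], c, ?_, ?_⟩
  · intro i
    fin_cases i
    · exact hz
    · exact (hy 0).2
  · refine hc.trans (sup_le ?_ ?_)
    · rw [Ideal.span_singleton_le_iff_mem]
      exact Ideal.subset_span ⟨0, rfl⟩
    · rw [Ideal.span_le]
      rintro w ⟨j, rfl⟩
      have hj : j = 0 := Subsingleton.elim _ _
      subst hj
      exact Ideal.subset_span ⟨1, rfl⟩

end H42.D2
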